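import Pool.Agent.H448R5.Pump

set_option autoImplicit false

/-! Counting classes. -/

namespace Pool.Agent.H448R5

open Set Pool.Agent.H448R3 Pool.Agent.H448R4

/-- the word with a given code -/
def wd (c : ℕ) : List ℕ := (Encodable.decode c : Option (List ℕ)).getD []

theorem wd_encode (w : List ℕ) : wd (Encodable.encode w) = w := by
  unfold wd; rw [Encodable.encodek]; rfl

theorem encode_wd (c : ℕ) : Encodable.encode (wd c) = c := by
  unfold wd
  rw [Denumerable.decode_eq_ofNat]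
  exact Denumerable.encode_ofNat c

theorem wd_inj {c d : ℕ} (h : wd c = wd d) : c = d := by
  rw [← encode_wd c, ← encode_wd d, h]

/-- bound for codes of words -/
def bd (A : ℕ) (n : ℕ) : ℕ :=
  Nat.rec (motive := fun _ => ℕ) 1 (fun _ e => (A + e + 1) * (A + e + 1) + 1) n

theorem bd_succ (A n : ℕ) : bd A (n + 1) = (A + bd A n + 1) * (A + bd A n + 1) + 1 := rfl

theorem encode_lt_bd {A : ℕ} (w : List ℕ) (n : ℕ) (h1 : ∀ a ∈ w, a < A) (h2 : w.length ≤ n) :
    Encodable.encode w < bd A n := by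
  induction n generalizing w with
  | zero =>
    have : w = [] := List.length_eq_zero_iff.1 (by omega)
    subst this
    exact Nat.zero_lt_one
  | succ n ih =>
    rw [bd_succ]
    rcases w with _ | ⟨a, l⟩
    · show 0 < _
      omega
    · rw [Encodable.encode_list_cons]
      have h3 := ih l (fun b hb => h1 b (List.mem_cons_of_mem _ hb))
        (by rw [List.length_cons] at h2; omega)
      have h4 : a < A := h1 a List.mem_cons_self
      have h5 := Nat.pair_lt_max_add_one_sq a (Encodable.encode l)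
      have h6 : max a (Encodable.encode l) + 1 ≤ A + bd A n + 1 := by omega
      have h7 : (max a (Encodable.encode l) + 1) ^ 2 ≤ (A + bd A n + 1) * (A + bd A n + 1) := by
        rw [pow_two]; exact Nat.mul_le_mul h6 h6
      show Nat.pair a (Encodable.encode l) + 1 < _
      omega

/-- counting below a bound -/
def cnt (n : ℕ) (q : ℕ → Bool) : ℕ := (rfilter n q).length

theorem cnt_encard (n : ℕ) (q : ℕ → Bool) :
    ({c | c < n ∧ q c = true} : Set ℕ).encard = (cnt n q : ℕ∞) := by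
  have h1 : ({c | c < n ∧ q c = true} : Set ℕ) = ((rfilter n q).toFinset : Set ℕ) := by
    ext c
    simp only [Finset.mem_coe, List.mem_toFinset, mem_rfilter]
    exact Iff.rfl
  rw [h1, Set.encard_coe_eq_coe_finsetCard, List.toFinset_card_of_nodup (nodup_rfilter n q)]
  rfl

/-- decoding of cardinalities -/
def dec : ℕ → ℕ∞
  | 0 => ⊤
  | n + 1 => (n : ℕ∞)

theorem dec_inj {m n : ℕ} (h : dec m = dec n) : m = n := by
  rcases m with _ | m <;> rcases n with _ | n
  · rfl
  · exact absurd h (by simp [dec])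
  · exact absurd h (by simp [dec])
  · have : (m : ℕ∞) = n := h
    rw [Nat.cast_inj.1 this]

theorem dec_surj (κ : ℕ∞) : ∃ k, dec k = κ := by
  rcases κ with _ | k
  · exact ⟨0, rfl⟩
  · exact ⟨k + 1, rfl⟩

theorem adm_dec (k : ℕ) : Adm (dec k) (k + 1) := by
  refine ⟨by omega, ?_⟩
  rcases k with _ | k
  · exact Or.inl rfl
  · exact Or.inr ⟨k, rfl, by omega⟩

theorem encard_cnt (S : Set (List ℕ)) (B : ℕ) (q : ℕ → Bool) (h1 : ∀ w ∈ S, Encodable.encode w < B)
    (h2 : ∀ c, q c = true ↔ wd c ∈ S) : S.encard = cnt B q := by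
  rw [← cnt_encard]
  have : S = wd '' {c | c < B ∧ q c = true} := by
    ext w
    constructor
    · intro hw
      exact ⟨Encodable.encode w, ⟨h1 w hw, (h2 _).2 (by rw [wd_encode]; exact hw)⟩, wd_encode w⟩
    · rintro ⟨c, ⟨_, hc⟩, rfl⟩
      exact (h2 c).1 hc
  rw [this]
  exact Set.InjOn.encard_image fun a _ b _ h => wd_inj h

/-- the size of a class -/
def szB (A c0 : ℕ) (inC : ℕ → Bool) (len : ℕ) : ℕ :=
  bif bex (bd A (len + c0 + c0)) (fun d => inC d && decide (len + c0 < (wd d).length + 1)) then 0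
  else cnt (bd A (len + c0)) inC + 1

/-- the test for shortest members of classes of given size -/
def lkB (A c0 : ℕ) (inD : ℕ → Bool) (inC : ℕ → ℕ → Bool) (k c : ℕ) : Bool :=
  inD c && ((szB A c0 (inC c) (wd c).length == k) &&
    !(bex (bd A (wd c).length) (fun d => inC c d && decide ((wd d).length < (wd c).length))))

/-- the number of classes of a given size -/
def nB (A M : ℕ) (lk : ℕ → Bool) (inR : ℕ → ℕ → Bool) : ℕ :=
  bif bex (bd A (M + M)) (fun c => lk c && decide (M < (wd c).length + 1)) then 0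
  else cnt (bd A M) (fun c => lk c && !(bex c (fun d => lk d && inR d c))) + 1

section

variable {α β : Type} [Fintype α] [Fintype β] {D : Set (List ℕ)}
  {R : Set (List (Option ℕ × Option ℕ))} {fD : List ℕ → α}
  {fR : List (Option ℕ × Option ℕ) → β}

theorem szB_spec (H : Aut D R fD fR) {c0 : ℕ} (hc : Fintype.card (α × β) ≤ c0) {A : ℕ}
    (hA : ∀ u ∈ D, ∀ a ∈ u, a < A) (u : List ℕ) (inC : ℕ → Bool)
    (hC : ∀ c, inC c = true ↔ wd c ∈ cls D (rl R) u) :
    dec (szB A c0 inC u.length) = (cls D (rl R) u).encard := by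
  unfold szB
  rcases hb : bex (bd A (u.length + c0 + c0))
    (fun d => inC d && decide (u.length + c0 < (wd d).length + 1)) with _ | _
  · rw [cond_false]
    have hno : ¬ ∃ w ∈ cls D (rl R) u, u.length + c0 ≤ w.length := by
      rintro ⟨w, hw, hl⟩
      obtain ⟨w', h1, h2, h3⟩ := (cls_pump H hc hw hl).1
      have : bex (bd A (u.length + c0 + c0))
          (fun d => inC d && decide (u.length + c0 < (wd d).length + 1)) = true := by
        rw [bex_iff]
        refine ⟨Encodable.encode w', encode_lt_bd w' _ (hA w' h1.1) (by omega), ?_⟩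
        rw [Bool.and_eq_true, hC, wd_encode, decide_eq_true_eq]
        exact ⟨h1, by omega⟩
      rw [hb] at this
      exact absurd this (by simp)
    push Not at hno
    show ((cnt (bd A (u.length + c0)) inC : ℕ) : ℕ∞) = _
    refine (encard_cnt _ _ _ ?_ hC).symm
    intro w hw
    exact encode_lt_bd w _ (hA w hw.1) (by have := hno w hw; omega)
  · rw [cond_true]
    rw [bex_iff] at hb
    obtain ⟨d, _, hd⟩ := hb
    rw [Bool.and_eq_true, hC, decide_eq_true_eq] at hd
    exact ((cls_top_iff H hc hA u).2 ⟨wd d, hd.1, by omega⟩).symm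

theorem lkB_spec (H : Aut D R fD fR) {c0 : ℕ} (hc : Fintype.card (α × β) ≤ c0) {A : ℕ}
    (hA : ∀ u ∈ D, ∀ a ∈ u, a < A) (inD : ℕ → Bool) (inC : ℕ → ℕ → Bool)
    (hD : ∀ c, inD c = true ↔ wd c ∈ D)
    (hC : ∀ c d, inC c d = true ↔ wd d ∈ cls D (rl R) (wd c)) (k c : ℕ) :
    lkB A c0 inD inC k c = true ↔ wd c ∈ Lk D R (dec k) := by
  unfold lkB
  rw [Bool.and_eq_true, Bool.and_eq_true, hD, Bool.not_eq_true', beq_iff_eq]
  have h1 := szB_spec H hc hA (wd c) (inC c) (hC c)
  have h2 : (szB A c0 (inC c) (wd c).length = k ↔ (cls D (rl R) (wd c)).encard = dec k) := by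
    rw [← h1]
    exact ⟨fun h => by rw [h], dec_inj⟩
  have h3 : bex (bd A (wd c).length)
      (fun d => inC c d && decide ((wd d).length < (wd c).length)) = false ↔
      ∀ v ∈ cls D (rl R) (wd c), (wd c).length ≤ v.length := by
    rw [← Bool.not_eq_true, bex_iff]
    constructor
    · intro h v hv
      by_contra hlt
      apply h
      refine ⟨Encodable.encode v, encode_lt_bd v _ (hA v hv.1) (by omega), ?_⟩
      rw [Bool.and_eq_true, hC, wd_encode, decide_eq_true_eq]
      exact ⟨hv, by omega⟩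
    · rintro h ⟨d, _, hd⟩
      rw [Bool.and_eq_true, hC, decide_eq_true_eq] at hd
      have := h _ hd.1
      omega
  rw [h2, h3]
  rfl

theorem exists_short (hE : EqOn' D (rl R)) {u : List ℕ} (hu : u ∈ D) :
    ∃ v ∈ Lk D R (cls D (rl R) u).encard, cls D (rl R) v = cls D (rl R) u := by
  have hne : ∃ n, ∃ v ∈ cls D (rl R) u, v.length = n := ⟨_, u, mem_cls hE hu, rfl⟩
  classical
  obtain ⟨v, hv, hl⟩ := Nat.find_spec hne
  have he : cls D (rl R) u = cls D (rl R) v := (cls_eq hE hu hv.1).2 hv.2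
  refine ⟨v, ⟨hv.1, by rw [he], ?_⟩, he.symm⟩
  intro w hw
  rw [← he] at hw
  rw [hl]
  exact Nat.find_min' hne ⟨w, hw, rfl⟩

theorem clset_top (H : Aut D R fD fR) (hE : EqOn' D (rl R)) {A : ℕ}
    (hA : ∀ u ∈ D, ∀ a ∈ u, a < A) {K : ℕ} {κ : ℕ∞} (hK : Adm κ K) {M : ℕ}
    (hM : Fintype.card (α × Set ((Fin K → Bool × α × β) × (Fin K → Fin K → Bool))) ≤ M)
    {u : List ℕ} (hu : u ∈ Lk D R κ) (hl : M ≤ u.length) : (clset D (rl R) κ).encard = ⊤ := by
  classical
  have hp := pump_up (Lk D R κ) (mu fD fR K) (Lk_congr H hA hK) hM hu hl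
  rw [Set.encard_eq_top_iff]
  intro hf
  obtain ⟨B, hB⟩ := (hf.image (fun C : Set (List ℕ) => sInf (List.length '' C))).bddAbove
  obtain ⟨w, hw, h1⟩ := hp (B + 1)
  have h2 : cls D (rl R) w ∈ clset D (rl R) κ := ⟨w, hw.1, rfl, hw.2.1⟩
  have h3 := hB (mem_image_of_mem _ h2)
  have h4 : sInf (List.length '' cls D (rl R) w) = w.length := by
    apply le_antisymm
    · exact Nat.sInf_le ⟨w, mem_cls hE hw.1, rfl⟩
    · have hne : (List.length '' cls D (rl R) w).Nonempty := ⟨_, w, mem_cls hE hw.1, rfl⟩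
      obtain ⟨v, hv, hv2⟩ := Nat.sInf_mem hne
      rw [← hv2]
      exact hw.2.2 v hv
  simp only [h4] at h3
  omega

theorem nB_spec (H : Aut D R fD fR) (hE : EqOn' D (rl R)) {A : ℕ}
    (hA : ∀ u ∈ D, ∀ a ∈ u, a < A) {K : ℕ} {κ : ℕ∞} (hK : Adm κ K) {M : ℕ}
    (hM : Fintype.card (α × Set ((Fin K → Bool × α × β) × (Fin K → Fin K → Bool))) ≤ M)
    (lk : ℕ → Bool) (inR : ℕ → ℕ → Bool) (hlk : ∀ c, lk c = true ↔ wd c ∈ Lk D R κ)
    (hR : ∀ c d, inR c d = true ↔ rl R (wd c) (wd d)) :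
    dec (nB A M lk inR) = (clset D (rl R) κ).encard := by
  unfold nB
  rcases hb : bex (bd A (M + M)) (fun c => lk c && decide (M < (wd c).length + 1)) with _ | _
  · rw [cond_false]
    have hno : ∀ u ∈ Lk D R κ, u.length < M := by
      intro u hu
      by_contra hlt
      obtain ⟨w', h1, h2, h3⟩ := pump_down (Lk D R κ) (mu fD fR K) (Lk_congr H hA hK) hM M hu
        (by omega)
      have : bex (bd A (M + M)) (fun c => lk c && decide (M < (wd c).length + 1)) = true := by
        rw [bex_iff]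
        refine ⟨Encodable.encode w', encode_lt_bd w' _ (hA w' h1.1) (by omega), ?_⟩
        rw [Bool.and_eq_true, hlk, wd_encode, decide_eq_true_eq]
        exact ⟨h1, by omega⟩
      rw [hb] at this
      exact absurd this (by simp)
    show ((cnt (bd A M) _ : ℕ) : ℕ∞) = _
    rw [← cnt_encard]
    have hq : ∀ c, ((lk c && !(bex c (fun d => lk d && inR d c))) = true ↔
        wd c ∈ Lk D R κ ∧ ∀ d < c, wd d ∈ Lk D R κ → ¬ rl R (wd d) (wd c)) := by
      intro c
      rw [Bool.and_eq_true, hlk, Bool.not_eq_true', ← Bool.not_eq_true, bex_iff]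
      refine and_congr Iff.rfl ?_
      constructor
      · intro h d hd h1 h2
        exact h ⟨d, hd, by rw [Bool.and_eq_true, hlk, hR]; exact ⟨h1, h2⟩⟩
      · rintro h ⟨d, hd, h1⟩
        rw [Bool.and_eq_true, hlk, hR] at h1
        exact h d hd h1.1 h1.2
    have himg : clset D (rl R) κ = (fun c => cls D (rl R) (wd c)) ''
        {c | c < bd A M ∧ (lk c && !(bex c (fun d => lk d && inR d c))) = true} := by
      ext C
      constructor
      · rintro ⟨u, hu, rfl, hk⟩
        obtain ⟨v, hv, he⟩ := exists_short hE hu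
        rw [hk] at hv
        have hne : ∃ c, wd c ∈ Lk D R κ ∧ cls D (rl R) (wd c) = cls D (rl R) u :=
          ⟨Encodable.encode v, by rw [wd_encode]; exact ⟨hv, he⟩⟩
        classical
        obtain ⟨h1, h2⟩ := Nat.find_spec hne
        refine ⟨Nat.find hne, ⟨?_, (hq _).2 ⟨h1, ?_⟩⟩, h2⟩
        · have h3 := hno _ h1
          have h4 := encode_lt_bd (wd (Nat.find hne)) M (hA _ h1.1) (by omega)
          rwa [encode_wd] at h4
        · intro d hd h3 h4
          refine Nat.find_min hne hd ⟨h3, ?_⟩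
          rw [← h2]
          exact (cls_eq hE h3.1 h1.1).2 h4
      · rintro ⟨c, ⟨_, hc⟩, rfl⟩
        rw [hq] at hc
        exact ⟨wd c, hc.1.1, rfl, hc.1.2.1⟩
    rw [himg]
    refine (Set.InjOn.encard_image ?_).symm
    intro c hc d hd he
    have hc' := (hq c).1 hc.2
    have hd' := (hq d).1 hd.2
    rcases Nat.lt_trichotomy c d with h | h | h
    · exact absurd ((cls_eq hE hc'.1.1 hd'.1.1).1 he) (hd'.2 c h hc'.1)
    · exact h
    · exact absurd ((cls_eq hE hd'.1.1 hc'.1.1).1 he.symm) (hc'.2 d h hd'.1)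
  · rw [cond_true]
    rw [bex_iff] at hb
    obtain ⟨d, _, hd⟩ := hb
    rw [Bool.and_eq_true, hlk, decide_eq_true_eq] at hd
    exact (clset_top H hE hA hK hM hd.1 (by omega)).symm

/-! ### goodness -/

/-- a bad triple -/
def badB (inD : ℕ → Bool) (inR : ℕ → ℕ → Bool) (a b c : ℕ) : Bool :=
  inD a && (inD b && (inD c && (!(inR a a) || ((inR a b && !(inR b a)) ||
    (inR a b && (inR b c && !(inR a c)))))))

/-- the test for goodness -/
def goodB (B : ℕ) (inD : ℕ → Bool) (inR : ℕ → ℕ → Bool) : Bool :=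
  !(bex B fun a => bex B fun b => bex B fun c => badB inD inR a b c)

theorem goodB_spec (H : Aut D R fD fR) {A : ℕ} (hA : ∀ u ∈ D, ∀ a ∈ u, a < A) {M : ℕ}
    (hM : Fintype.card ((Fin 3 → Bool) × (Fin 3 → α) × (Fin 3 → Fin 3 → β)) ≤ M)
    (inD : ℕ → Bool) (inR : ℕ → ℕ → Bool) (hD : ∀ c, inD c = true ↔ wd c ∈ D)
    (hR : ∀ c d, inR c d = true ↔ rl R (wd c) (wd d)) :
    goodB (bd A M) inD inR = true ↔ EqOn' D (rl R) := by
  have hbad : ∀ a b c, badB inD inR a b c = true ↔ (wd a ∈ D ∧ wd b ∈ D ∧ wd c ∈ D ∧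
      (¬ rl R (wd a) (wd a) ∨ (rl R (wd a) (wd b) ∧ ¬ rl R (wd b) (wd a)) ∨
        (rl R (wd a) (wd b) ∧ rl R (wd b) (wd c) ∧ ¬ rl R (wd a) (wd c)))) := by
    intro a b c
    have hR' : ∀ c d, inR c d = false ↔ ¬ rl R (wd c) (wd d) := by
      intro c d
      rw [← hR, Bool.not_eq_true]
    unfold badB
    simp only [Bool.and_eq_true, Bool.or_eq_true, Bool.not_eq_true', hD, hR, hR']
  have hgood : EqOn' D (rl R) ↔ ¬ ∃ u v w : List ℕ, u ∈ D ∧ v ∈ D ∧ w ∈ D ∧
      (¬ rl R u u ∨ (rl R u v ∧ ¬ rl R v u) ∨ (rl R u v ∧ rl R v w ∧ ¬ rl R u w)) := by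
    constructor
    · rintro ⟨h1, h2, h3⟩ ⟨u, v, w, hu, hv, hw, h | h | h⟩
      · exact h (h1 u hu)
      · exact h.2 (h2 u hu v hv h.1)
      · exact h.2.2 (h3 u hu v hv w hw h.1 h.2.1)
    · intro h
      refine ⟨?_, ?_, ?_⟩
      · intro u hu
        by_contra hc
        exact h ⟨u, u, u, hu, hu, hu, Or.inl hc⟩
      · intro u hu v hv hr
        by_contra hc
        exact h ⟨u, v, v, hu, hv, hv, Or.inr (Or.inl ⟨hr, hc⟩)⟩
      · intro u hu v hv w hw hr hr'
        by_contra hc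
        exact h ⟨u, v, w, hu, hv, hw, Or.inr (Or.inr ⟨hr, hr', hc⟩)⟩
  rw [hgood]
  unfold goodB
  rw [Bool.not_eq_true', ← Bool.not_eq_true]
  refine not_congr ?_
  rw [bex_iff]
  constructor
  · rintro ⟨a, _, h⟩
    rw [bex_iff] at h
    obtain ⟨b, _, h⟩ := h
    rw [bex_iff] at h
    obtain ⟨c, _, h⟩ := h
    rw [hbad] at h
    exact ⟨_, _, _, h⟩
  · rintro ⟨u, v, w, h⟩
    obtain ⟨z, hz, hΦ⟩ := tuple_short (ι := Fin 3) H
      (fun d r => d 0 ∧ d 1 ∧ d 2 ∧ (¬ r 0 0 ∨ (r 0 1 ∧ ¬ r 1 0) ∨ (r 0 1 ∧ r 1 2 ∧ ¬ r 0 2))) hM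
      ![u, v, w] h
    have hb : ∀ k, z k ∈ D → Encodable.encode (z k) < bd A M := fun k hk =>
      encode_lt_bd _ _ (hA _ hk) (le_of_lt (hz k))
    refine ⟨Encodable.encode (z 0), hb 0 hΦ.1, ?_⟩
    rw [bex_iff]
    refine ⟨Encodable.encode (z 1), hb 1 hΦ.2.1, ?_⟩
    rw [bex_iff]
    refine ⟨Encodable.encode (z 2), hb 2 hΦ.2.2.1, ?_⟩
    rw [hbad, wd_encode, wd_encode, wd_encode]
    exact hΦ

end

end Pool.Agent.H448R5
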