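import Pool.Agent.H448R5.Run

set_option autoImplicit false

/-! Isomorphism of automatic equivalence relations is co-r.e. -/

namespace Pool.Agent.H448R5

open Set Pool.Agent.H448R3 Pool.Agent.H448R4

/-- list version of pairs of automata -/
abbrev LT : Type := (List (ℕ × ℕ × ℕ) × ℕ × List ℕ) ×
  (List (ℕ × (Option ℕ × Option ℕ) × ℕ) × ℕ × List ℕ)

/-- membership in the domain -/
def inD (l : LT) (c : ℕ) : Bool := accL l.1.1 l.1.2.1 l.1.2.2 (wd c)

/-- the relation -/
def inR (l : LT) (c d : ℕ) : Bool := accL l.2.1 l.2.2.1 l.2.2.2 (cv (wd c) (wd d))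

/-- membership in a class -/
def inC (l : LT) (c d : ℕ) : Bool := inD l d && inR l c d

/-- exponent -/
def ea (l : LT) : ℕ := l.1.1.length + 1
/-- exponent -/
def eb (l : LT) : ℕ := l.2.1.length + 1
/-- bound -/
def c0 (l : LT) : ℕ := 2 ^ (ea l + eb l)
/-- bound -/
def MG (l : LT) : ℕ := 2 ^ (3 + (3 * ea l + 9 * eb l))
/-- bound -/
def MM (l : LT) (K : ℕ) : ℕ := 2 ^ (ea l + 2 ^ ((1 + ea l + eb l) * K + K * K))

/-- goodness -/
def gd (l : LT) : Bool := goodB (bd (Aof l.1.1) (MG l)) (inD l) (inR l)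

/-- the numbers of classes -/
def vl (l : LT) (k : ℕ) : ℕ :=
  nB (Aof l.1.1) (MM l (k + 1)) (lkB (Aof l.1.1) (c0 l) (inD l) (inC l) k) (inR l)

/-- the domain -/
def DL (l : LT) : Set (List ℕ) := {w | accL l.1.1 l.1.2.1 l.1.2.2 w = true}
/-- the set of convolutions -/
def RL (l : LT) : Set (List (Option ℕ × Option ℕ)) := {w | accL l.2.1 l.2.2.1 l.2.2.2 w = true}

theorem autL (l : LT) : Aut (DL l) (RL l) (fS l.1.1 l.1.2.1) (fS l.2.1 l.2.2.1) :=
  ⟨fun u u' x h => fS_congr _ _ _ u u' x h, fun u u' x h => fS_congr _ _ _ u u' x h⟩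

theorem alphL (l : LT) : ∀ u ∈ DL l, ∀ a ∈ u, a < Aof l.1.1 := by
  intro u hu a ha
  have h1 : accL l.1.1 l.1.2.1 l.1.2.2 u = true := hu
  rw [accL_iff] at h1
  obtain ⟨q, hq, _⟩ := h1
  obtain ⟨t, ht, rfl⟩ := runL_letters _ _ _ ⟨q, hq⟩ a ha
  exact lt_Aof _ t ht

theorem gd_spec (l : LT) : gd l = true ↔ EqOn' (DL l) (rl (RL l)) := by
  refine goodB_spec (autL l) (alphL l) ?_ (inD l) (inR l) (fun c => Iff.rfl) (fun c d => Iff.rfl)
  simp only [Fintype.card_prod, Fintype.card_pi, Fintype.card_bool, Finset.prod_const,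
    Finset.card_univ, Fintype.card_fin]
  unfold MG ea eb
  rw [← pow_mul, ← pow_mul, ← pow_mul, ← pow_add, ← pow_add]
  exact Nat.pow_le_pow_right (by norm_num) (by omega)

theorem vl_spec (l : LT) (h : EqOn' (DL l) (rl (RL l))) (k : ℕ) :
    dec (vl l k) = (clset (DL l) (rl (RL l)) (dec k)).encard := by
  have h1 : Fintype.card (Fin (l.1.1.length + 1) → Bool) = 2 ^ ea l := by
    simp [ea]
  have h2 : Fintype.card (Fin (l.2.1.length + 1) → Bool) = 2 ^ eb l := by
    simp [eb]
  refine nB_spec (autL l) h (alphL l) (adm_dec k) ?_ _ (inR l) ?_ (fun c d => Iff.rfl)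
  · rw [card_mu h1 h2]
    exact le_refl _
  · intro c
    refine lkB_spec (autL l) ?_ (alphL l) (inD l) (inC l) (fun c => Iff.rfl) ?_ k c
    · rw [Fintype.card_prod, h1, h2, ← pow_add]
      exact le_refl _
    · intro c d
      unfold inC
      rw [Bool.and_eq_true]
      exact Iff.rfl

/-! ### computability -/

theorem inD_prim : Primrec₂ inD := by
  have h1 : Primrec fun r : LT × ℕ =>
      ((r.1.1, wd r.2) : (List (ℕ × ℕ × ℕ) × ℕ × List ℕ) × List ℕ) :=
    Primrec.pair (Primrec.fst.comp Primrec.fst) (wd_prim.comp Primrec.snd)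
  exact Primrec.of_eq (accL_prim.comp h1) (fun r => rfl)

theorem inR_prim : Primrec fun r : LT × ℕ × ℕ => inR r.1 r.2.1 r.2.2 := by
  have h0 : Primrec fun r : LT × ℕ × ℕ => cv (wd r.2.1) (wd r.2.2) :=
    cv_prim.comp (wd_prim.comp (Primrec.fst.comp Primrec.snd))
      (wd_prim.comp (Primrec.snd.comp Primrec.snd))
  have h1 : Primrec fun r : LT × ℕ × ℕ =>
      ((r.1.2, cv (wd r.2.1) (wd r.2.2)) :
        (List (ℕ × (Option ℕ × Option ℕ) × ℕ) × ℕ × List ℕ) × List (Option ℕ × Option ℕ)) :=
    Primrec.pair (Primrec.snd.comp Primrec.fst) h0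
  exact Primrec.of_eq (accL_prim.comp h1) (fun r => rfl)

theorem inD_c {α : Type} [Primcodable α] {l : α → LT} {c : α → ℕ} (hl : Computable l)
    (hc : Computable c) : Computable fun a => inD (l a) (c a) :=
  inD_prim.to_comp.comp hl hc

theorem inR_c {α : Type} [Primcodable α] {l : α → LT} {c d : α → ℕ} (hl : Computable l)
    (hc : Computable c) (hd : Computable d) : Computable fun a => inR (l a) (c a) (d a) := by
  have h1 : Computable fun a => ((l a, c a, d a) : LT × ℕ × ℕ) :=
    Computable.pair hl (Computable.pair hc hd)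
  exact (inR_prim.to_comp.comp h1).of_eq (fun a => rfl)

theorem inC_c {α : Type} [Primcodable α] {l : α → LT} {c d : α → ℕ} (hl : Computable l)
    (hc : Computable c) (hd : Computable d) : Computable fun a => inC (l a) (c a) (d a) :=
  cand (inD_c hl hd) (inR_c hl hc hd)

theorem bd_c {α : Type} [Primcodable α] {A n : α → ℕ} (hA : Computable A) (hn : Computable n) :
    Computable fun a => bd (A a) (n a) := by
  have h3 : Computable₂ fun (a : α) (p : ℕ × ℕ) => (A a + p.2 + 1) * (A a + p.2 + 1) + 1 := by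
    have c1 : Computable fun r : α × (ℕ × ℕ) => A r.1 + r.2.2 + 1 :=
      Computable.succ.comp (cadd (hA.comp Computable.fst) (Computable.snd.comp Computable.snd))
    exact Computable.succ.comp (cmul c1 c1)
  exact (Computable.nat_rec hn (Computable.const 1) h3).of_eq fun a => rfl

theorem len_c {α : Type} [Primcodable α] {c : α → ℕ} (hc : Computable c) :
    Computable fun a => (wd (c a)).length :=
  (Primrec.list_length.comp wd_prim).to_comp.comp hc

theorem cnt_c {α : Type} [Primcodable α] {n : α → ℕ} {q : α → ℕ → Bool} (hn : Computable n)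
    (hq : Computable₂ q) : Computable fun a => cnt (n a) (q a) :=
  Primrec.list_length.to_comp.comp (rfilter_comp hn hq)

theorem szB_c {α : Type} [Primcodable α] {A c0 len : α → ℕ} {q : α → ℕ → Bool}
    (hA : Computable A) (hc : Computable c0) (hlen : Computable len) (hq : Computable₂ q) :
    Computable fun a => szB (A a) (c0 a) (q a) (len a) := by
  have e1 : Computable fun a => len a + c0 a := cadd hlen hc
  have b1 : Computable fun a => bd (A a) (len a + c0 a + c0 a) := bd_c hA (cadd e1 hc)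
  have b2 : Computable fun a => bd (A a) (len a + c0 a) := bd_c hA e1
  have q1 : Computable₂ fun (a : α) (d : ℕ) =>
      (q a d && decide (len a + c0 a < (wd d).length + 1)) := by
    have g1 : Computable fun r : α × ℕ => q r.1 r.2 := hq
    have g2 : Computable fun r : α × ℕ => len r.1 + c0 r.1 := e1.comp Computable.fst
    have g3 : Computable fun r : α × ℕ => (wd r.2).length + 1 :=
      Computable.succ.comp (len_c Computable.snd)
    exact cand g1 (clt g2 g3)
  exact Computable.cond (bex_comp b1 q1) (Computable.const 0) (Computable.succ.comp (cnt_c b2 hq))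

theorem ea_c : Computable ea :=
  Computable.succ.comp (Primrec.list_length.to_comp.comp (Computable.fst.comp Computable.fst))
theorem eb_c : Computable eb :=
  Computable.succ.comp (Primrec.list_length.to_comp.comp (Computable.fst.comp Computable.snd))
theorem c0_c : Computable c0 := pow2_comp.comp (cadd ea_c eb_c)
theorem MG_c : Computable MG :=
  pow2_comp.comp (cadd (Computable.const 3) (cadd (cmul (Computable.const 3) ea_c)
    (cmul (Computable.const 9) eb_c)))
theorem MM_c : Computable₂ MM := by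
  have a1 : Computable fun r : LT × ℕ => ea r.1 := ea_c.comp Computable.fst
  have a2 : Computable fun r : LT × ℕ => eb r.1 := eb_c.comp Computable.fst
  have a3 : Computable fun r : LT × ℕ => r.2 := Computable.snd
  exact pow2_comp.comp (cadd a1 (pow2_comp.comp (cadd (cmul (cadd (cadd (Computable.const 1) a1) a2)
    a3) (cmul a3 a3))))

theorem A_c : Computable fun l : LT => Aof l.1.1 :=
  Aof_prim.to_comp.comp (Computable.fst.comp Computable.fst)

theorem lk_c {α : Type} [Primcodable α] {l : α → LT} {k c : α → ℕ} (hl : Computable l)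
    (hk : Computable k) (hc : Computable c) :
    Computable fun a => lkB (Aof (l a).1.1) (c0 (l a)) (inD (l a)) (inC (l a)) (k a) (c a) := by
  have hA : Computable fun a => Aof (l a).1.1 := A_c.comp hl
  have h0 : Computable fun a => c0 (l a) := c0_c.comp hl
  have hq : Computable₂ fun (a : α) (d : ℕ) => inC (l a) (c a) d :=
    inC_c (hl.comp Computable.fst) (hc.comp Computable.fst) Computable.snd
  have s1 : Computable fun a => szB (Aof (l a).1.1) (c0 (l a)) (inC (l a) (c a))
    (wd (c a)).length := szB_c hA h0 (len_c hc) hq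
  have s2 : Computable fun a => (szB (Aof (l a).1.1) (c0 (l a)) (inC (l a) (c a))
    (wd (c a)).length == k a) := cbeqN s1 hk
  have b1 : Computable fun a => bd (Aof (l a).1.1) (wd (c a)).length := bd_c hA (len_c hc)
  have q1 : Computable₂ fun (a : α) (d : ℕ) =>
      (inC (l a) (c a) d && decide ((wd d).length < (wd (c a)).length)) := by
    have g2 : Computable fun r : α × ℕ => (wd r.2).length := len_c Computable.snd
    have g3 : Computable fun r : α × ℕ => (wd (c r.1)).length := len_c (hc.comp Computable.fst)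
    exact cand hq (clt g2 g3)
  exact cand (inD_c hl hc) (cand s2 (cnot (bex_comp b1 q1)))

theorem vl_c : Computable₂ vl := by
  have l1 : Computable fun r : LT × ℕ => r.1 := Computable.fst
  have k1 : Computable fun r : LT × ℕ => r.2 := Computable.snd
  have hA : Computable fun r : LT × ℕ => Aof r.1.1.1 := A_c.comp Computable.fst
  have hM : Computable fun r : LT × ℕ => MM r.1 (r.2 + 1) :=
    MM_c.comp Computable.fst (Computable.succ.comp Computable.snd)
  have q1 : Computable₂ fun (r : LT × ℕ) (c : ℕ) =>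
      lkB (Aof r.1.1.1) (c0 r.1) (inD r.1) (inC r.1) r.2 c :=
    lk_c (l1.comp Computable.fst) (k1.comp Computable.fst) Computable.snd
  have q2 : Computable₂ fun (r : LT × ℕ) (c : ℕ) =>
      (lkB (Aof r.1.1.1) (c0 r.1) (inD r.1) (inC r.1) r.2 c &&
        decide (MM r.1 (r.2 + 1) < (wd c).length + 1)) := by
    have g2 : Computable fun s : (LT × ℕ) × ℕ => MM s.1.1 (s.1.2 + 1) := hM.comp Computable.fst
    have g3 : Computable fun s : (LT × ℕ) × ℕ => (wd s.2).length + 1 :=
      Computable.succ.comp (len_c Computable.snd)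
    exact cand q1 (clt g2 g3)
  have q3 : Computable₂ fun (s : (LT × ℕ) × ℕ) (d : ℕ) =>
      (lkB (Aof s.1.1.1.1) (c0 s.1.1) (inD s.1.1) (inC s.1.1) s.1.2 d && inR s.1.1 d s.2) := by
    have t1 : Computable fun t : ((LT × ℕ) × ℕ) × ℕ => t.1.1.1 :=
      Computable.fst.comp (Computable.fst.comp Computable.fst)
    have t2 : Computable fun t : ((LT × ℕ) × ℕ) × ℕ => t.1.1.2 :=
      Computable.snd.comp (Computable.fst.comp Computable.fst)
    have t3 : Computable fun t : ((LT × ℕ) × ℕ) × ℕ => t.1.2 :=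
      Computable.snd.comp Computable.fst
    have t4 : Computable fun t : ((LT × ℕ) × ℕ) × ℕ => t.2 := Computable.snd
    exact cand (lk_c t1 t2 t4) (inR_c t1 t4 t3)
  have q4 : Computable₂ fun (r : LT × ℕ) (c : ℕ) =>
      (lkB (Aof r.1.1.1) (c0 r.1) (inD r.1) (inC r.1) r.2 c &&
        !(bex c (fun d => lkB (Aof r.1.1.1) (c0 r.1) (inD r.1) (inC r.1) r.2 d && inR r.1 d c))) := by
    have g1 : Computable fun s : (LT × ℕ) × ℕ => bex s.2 (fun d =>
        lkB (Aof s.1.1.1.1) (c0 s.1.1) (inD s.1.1) (inC s.1.1) s.1.2 d && inR s.1.1 d s.2) :=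
      bex_comp Computable.snd q3
    exact cand q1 (cnot g1)
  exact Computable.cond (bex_comp (bd_c hA (cadd hM hM)) q2) (Computable.const 0)
    (Computable.succ.comp (cnt_c (bd_c hA hM) q4))

theorem gd_c : Computable gd := by
  have hB : Computable fun l : LT => bd (Aof l.1.1) (MG l) := bd_c A_c MG_c
  have q1 : Computable fun t : ((LT × ℕ) × ℕ) × ℕ => badB (inD t.1.1.1) (inR t.1.1.1) t.1.1.2 t.1.2
      t.2 := by
    have t1 : Computable fun t : ((LT × ℕ) × ℕ) × ℕ => t.1.1.1 :=
      Computable.fst.comp (Computable.fst.comp Computable.fst)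
    have t2 : Computable fun t : ((LT × ℕ) × ℕ) × ℕ => t.1.1.2 :=
      Computable.snd.comp (Computable.fst.comp Computable.fst)
    have t3 : Computable fun t : ((LT × ℕ) × ℕ) × ℕ => t.1.2 :=
      Computable.snd.comp Computable.fst
    have t4 : Computable fun t : ((LT × ℕ) × ℕ) × ℕ => t.2 := Computable.snd
    exact cand (inD_c t1 t2) (cand (inD_c t1 t3) (cand (inD_c t1 t4)
      (cor (cnot (inR_c t1 t2 t2)) (cor (cand (inR_c t1 t2 t3) (cnot (inR_c t1 t3 t2)))
        (cand (inR_c t1 t2 t3) (cand (inR_c t1 t3 t4) (cnot (inR_c t1 t2 t4))))))))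
  have q2 : Computable fun s : (LT × ℕ) × ℕ => bex (bd (Aof s.1.1.1.1) (MG s.1.1))
      (fun c => badB (inD s.1.1) (inR s.1.1) s.1.2 s.2 c) :=
    bex_comp (hB.comp (Computable.fst.comp Computable.fst)) q1.to₂
  have q3 : Computable fun s : LT × ℕ => bex (bd (Aof s.1.1.1) (MG s.1))
      (fun b => bex (bd (Aof s.1.1.1) (MG s.1)) (fun c => badB (inD s.1) (inR s.1) s.2 b c)) :=
    bex_comp (hB.comp Computable.fst) q2.to₂
  exact cnot (bex_comp hB q3.to₂)

/-! ### decoding -/

/-- test for lists without repetitions -/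
def nd {γ : Type} [DecidableEq γ] (l : List γ) : Bool :=
  ball l.length fun i => ball i fun j => !decide (l[i]? = l[j]?)

theorem nd_iff {γ : Type} [DecidableEq γ] (l : List γ) : nd l = true ↔ l.Nodup := by
  unfold nd
  rw [ball_iff, List.nodup_iff_getElem?_ne_getElem?]
  constructor
  · intro h i j hij hj he
    have h1 := h j hj
    rw [ball_iff] at h1
    have h2 := h1 i hij
    rw [Bool.not_eq_true', decide_eq_false_iff_not] at h2
    exact h2 he.symm
  · intro h j hj
    rw [ball_iff]
    intro i hij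
    rw [Bool.not_eq_true', decide_eq_false_iff_not]
    exact fun he => h i j hij hj he.symm

theorem nd_c {γ : Type} [DecidableEq γ] [Primcodable γ] : Computable (nd : List γ → Bool) := by
  have h0 : Computable₂ fun m n : Option γ => decide (m = n) := by
    have : Primrec₂ fun m n : Option γ => decide (m = n) := Primrec.eq.decide
    exact this.to_comp
  have h1 : Computable₂ fun (s : List γ × ℕ) (j : ℕ) => !decide (s.1[s.2]? = s.1[j]?) := by
    have c1 : Computable fun t : (List γ × ℕ) × ℕ => t.1.1[t.1.2]? :=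
      Computable.list_getElem?.comp (Computable.fst.comp Computable.fst)
        (Computable.snd.comp Computable.fst)
    have c2 : Computable fun t : (List γ × ℕ) × ℕ => t.1.1[t.2]? :=
      Computable.list_getElem?.comp (Computable.fst.comp Computable.fst) Computable.snd
    exact cnot (h0.comp c1 c2)
  have h2 : Computable₂ fun (l : List γ) (i : ℕ) => ball i fun j => !decide (l[i]? = l[j]?) :=
    (ball_comp (α := List γ × ℕ) Computable.snd h1).to₂
  exact ball_comp Computable.list_length h2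

/-- correspondence of optional values -/
def Cor {A B : Type} (ok : B → Prop) (c : A → B → Prop) (o1 : Option A) (o2 : Option B) : Prop :=
  (∀ b, o2 = some b → ok b → ∃ a, o1 = some a ∧ c a b) ∧
    (∀ a, o1 = some a → ∃ b, o2 = some b ∧ ok b ∧ c a b)

theorem cor_prod {A B A' B' : Type} [Encodable A] [Encodable B] [Encodable A'] [Encodable B']
    {ok : B → Prop} {c : A → B → Prop} {ok' : B' → Prop} {c' : A' → B' → Prop}
    (h : ∀ n, Cor ok c (Encodable.decode n : Option A) (Encodable.decode n : Option B))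
    (h' : ∀ n, Cor ok' c' (Encodable.decode n : Option A') (Encodable.decode n : Option B'))
    (n : ℕ) : Cor (fun b : B × B' => ok b.1 ∧ ok' b.2)
      (fun (a : A × A') (b : B × B') => c a.1 b.1 ∧ c' a.2 b.2)
      (Encodable.decode n : Option (A × A')) (Encodable.decode n : Option (B × B')) := by
  rw [Encodable.decode_prod_val, Encodable.decode_prod_val]
  constructor
  · rintro ⟨b, b'⟩ hb ⟨h1, h2⟩
    rw [Option.bind_eq_some_iff] at hb
    obtain ⟨b1, e1, e2⟩ := hb
    rw [Option.map_eq_some_iff] at e2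
    obtain ⟨b2, e3, e4⟩ := e2
    rw [Prod.mk.injEq] at e4
    obtain ⟨rfl, rfl⟩ := e4
    obtain ⟨a, ea, ca⟩ := (h _).1 _ e1 h1
    obtain ⟨a', ea', ca'⟩ := (h' _).1 _ e3 h2
    refine ⟨(a, a'), ?_, ca, ca'⟩
    rw [ea, ea']; rfl
  · rintro ⟨a, a'⟩ ha
    rw [Option.bind_eq_some_iff] at ha
    obtain ⟨b1, e1, e2⟩ := ha
    rw [Option.map_eq_some_iff] at e2
    obtain ⟨b2, e3, e4⟩ := e2
    rw [Prod.mk.injEq] at e4
    obtain ⟨rfl, rfl⟩ := e4
    obtain ⟨b, eb, ob, cb⟩ := (h _).2 _ e1
    obtain ⟨b', eb', ob', cb'⟩ := (h' _).2 _ e3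
    refine ⟨(b, b'), ?_, ⟨ob, ob'⟩, cb, cb'⟩
    rw [eb, eb']; rfl

theorem cor_nat (n : ℕ) : Cor (fun _ : ℕ => True) (fun a b : ℕ => a = b)
    (Encodable.decode n : Option ℕ) (Encodable.decode n : Option ℕ) :=
  ⟨fun b h _ => ⟨b, h, rfl⟩, fun a h => ⟨a, h, trivial, rfl⟩⟩

theorem cor_fin {γ : Type} [Encodable γ] (n : ℕ) :
    Cor (fun l : List γ => l.Nodup) (fun (s : Finset γ) (l : List γ) => ∀ x, x ∈ s ↔ x ∈ l)
      (Encodable.decode n : Option (Finset γ)) (Encodable.decode n : Option (List γ)) := by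
  let _ : DecidableEq γ := Encodable.decidableEqOfEncodable γ
  have h4 := @Encodable.decode_ofEquiv {s : Multiset γ // s.Nodup} (Finset γ) _
      { toFun := fun ⟨a, b⟩ => ⟨a, b⟩
        invFun := fun ⟨a, b⟩ => ⟨a, b⟩ } n
  have h5 : (Encodable.decode n : Option {s : Multiset γ // s.Nodup}) =
      (Encodable.decode n : Option (Multiset γ)).bind (fun a : Multiset γ =>
        if h : a.Nodup then some (⟨a, h⟩ : {s : Multiset γ // s.Nodup}) else none) := rfl
  have h6 : (Encodable.decode n : Option (Multiset γ)) =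
      ((↑) : List γ → Multiset γ) <$> (Encodable.decode n : Option (List γ)) := rfl
  have h7 : (Encodable.decode n : Option (Finset γ)) =
      ((Encodable.decode n : Option (List γ)).bind fun l : List γ =>
        if h : l.Nodup then some (⟨(l : Multiset γ), h⟩ : Finset γ) else none) := by
    refine Eq.trans h4 ?_
    rw [h5, h6]
    rcases (Encodable.decode n : Option (List γ)) with _ | l
    · rfl
    · show Option.map _ (dite ((l : Multiset γ).Nodup) _ _) = dite (l.Nodup) _ _
      by_cases h : l.Nodup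
      · rw [dif_pos (show (l : Multiset γ).Nodup from h), dif_pos h]; rfl
      · rw [dif_neg (show ¬ (l : Multiset γ).Nodup from h), dif_neg h]; rfl
  rw [h7]
  constructor
  · intro l hl hn
    refine ⟨⟨(l : Multiset γ), hn⟩, ?_, fun x => Iff.rfl⟩
    rw [hl, Option.bind_some, dif_pos hn]
  · intro s hs
    rw [Option.bind_eq_some_iff] at hs
    obtain ⟨l, hl, h8⟩ := hs
    by_cases hn : l.Nodup
    · rw [dif_pos hn, Option.some.injEq] at h8
      subst h8
      exact ⟨l, hl, hn, fun x => Iff.rfl⟩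
    · rw [dif_neg hn] at h8
      exact absurd h8 (by simp)

/-- all lists are without repetitions -/
def okB (l : LT) : Bool := (nd l.1.1 && nd l.1.2.2) && (nd l.2.1 && nd l.2.2.2)

theorem okB_c : Computable okB := by
  have a1 : Computable fun l : LT => l.1.1 := Computable.fst.comp Computable.fst
  have a2 : Computable fun l : LT => l.1.2.2 :=
    Computable.snd.comp (Computable.snd.comp Computable.fst)
  have a3 : Computable fun l : LT => l.2.1 := Computable.fst.comp Computable.snd
  have a4 : Computable fun l : LT => l.2.2.2 :=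
    Computable.snd.comp (Computable.snd.comp Computable.snd)
  exact cand (cand (nd_c.comp a1) (nd_c.comp a2)) (cand (nd_c.comp a3) (nd_c.comp a4))

theorem cor_PT (n : ℕ) : Cor (fun l : LT => okB l = true)
    (fun (p : PT) (l : LT) => domP p = DL l ∧ relP p = rl (RL l))
    (Encodable.decode n : Option PT) (Encodable.decode n : Option LT) := by
  have h1 := cor_prod (cor_prod (cor_fin (γ := ℕ × ℕ × ℕ)) (cor_prod cor_nat (cor_fin (γ := ℕ))))
    (cor_prod (cor_fin (γ := ℕ × (Option ℕ × Option ℕ) × ℕ))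
      (cor_prod cor_nat (cor_fin (γ := ℕ)))) n
  have hok : ∀ l : LT, okB l = true ↔ ((l.1.1.Nodup ∧ True ∧ l.1.2.2.Nodup) ∧
      (l.2.1.Nodup ∧ True ∧ l.2.2.2.Nodup)) := by
    intro l
    unfold okB
    simp only [Bool.and_eq_true, nd_iff, true_and]
  have hc : ∀ (p : PT) (l : LT), (((∀ x, x ∈ p.1.1 ↔ x ∈ l.1.1) ∧ p.1.2.1 = l.1.2.1 ∧
      ∀ x, x ∈ p.1.2.2 ↔ x ∈ l.1.2.2) ∧ ((∀ x, x ∈ p.2.1 ↔ x ∈ l.2.1) ∧ p.2.2.1 = l.2.2.1 ∧
      ∀ x, x ∈ p.2.2.2 ↔ x ∈ l.2.2.2)) → domP p = DL l ∧ relP p = rl (RL l) := by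
    rintro p l ⟨⟨a1, a2, a3⟩, b1, b2, b3⟩
    constructor
    · ext w
      unfold domP DL
      rw [a2]
      exact nfa_iff l.1.1 l.1.2.1 l.1.2.2 p.1.1 p.1.2.2 a1 a3 w
    · funext u v
      unfold relP rl RL
      rw [b2]
      exact propext (nfa_iff l.2.1 l.2.2.1 l.2.2.2 p.2.1 p.2.2.2 b1 b3 (cv u v))
  constructor
  · intro l hl h2
    obtain ⟨p, hp, h3⟩ := h1.1 l hl ((hok l).1 h2)
    exact ⟨p, hp, hc p l h3⟩
  · intro p hp
    obtain ⟨l, hl, h2, h3⟩ := h1.2 p hp
    exact ⟨l, hl, (hok l).2 h2, hc p l h3⟩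

/-- good codes -/
def gx (x : ℕ) : Bool :=
  Option.casesOn (motive := fun _ => Bool) (Encodable.decode x : Option LT) false
    (fun l => okB l && gd l)

/-- the numbers of classes -/
def vx (x k : ℕ) : ℕ :=
  Option.casesOn (motive := fun _ => ℕ) (Encodable.decode x : Option LT) 0 (fun l => vl l k)

theorem gx_c : Computable gx := by
  have h1 : Computable fun x : ℕ => (Encodable.decode x : Option LT) := Computable.decode
  have h2 : Computable₂ fun (_ : ℕ) (l : LT) => (okB l && gd l) :=
    cand (okB_c.comp Computable.snd) (gd_c.comp Computable.snd)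
  exact Computable.option_casesOn h1 (Computable.const false) h2

theorem vx_c : Computable₂ vx := by
  have h1 : Computable fun x : ℕ × ℕ => (Encodable.decode x.1 : Option LT) :=
    Computable.decode.comp Computable.fst
  have h2 : Computable₂ fun (x : ℕ × ℕ) (l : LT) => vl l x.2 :=
    vl_c.comp Computable.snd (Computable.snd.comp Computable.fst)
  exact Computable.option_casesOn h1 (Computable.const 0) h2

theorem gx_iff (x : ℕ) : gx x = true ↔
    ∃ p : PT, Encodable.decode x = some p ∧ EqOn' (domP p) (relP p) := by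
  have h := cor_PT x
  constructor
  · intro hg
    unfold gx at hg
    rcases hd : (Encodable.decode x : Option LT) with _ | l
    · rw [hd] at hg; exact absurd hg (by simp)
    · rw [hd] at hg
      have hg' : (okB l && gd l) = true := hg
      rw [Bool.and_eq_true, gd_spec] at hg'
      obtain ⟨p, hp, e1, e2⟩ := h.1 l hd hg'.1
      exact ⟨p, hp, by rw [e1, e2]; exact hg'.2⟩
  · rintro ⟨p, hp, hE⟩
    obtain ⟨l, hl, hok, e1, e2⟩ := h.2 p hp
    unfold gx
    rw [hl]
    show (okB l && gd l) = true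
    rw [Bool.and_eq_true, gd_spec, ← e1, ← e2]
    exact ⟨hok, hE⟩

theorem vx_spec {x : ℕ} {p : PT} (hp : Encodable.decode x = some p)
    (hE : EqOn' (domP p) (relP p)) (k : ℕ) :
    dec (vx x k) = (clset (domP p) (relP p) (dec k)).encard := by
  obtain ⟨l, hl, hok, e1, e2⟩ := (cor_PT x).2 p hp
  unfold vx
  rw [hl]
  show dec (vl l k) = _
  rw [e1, e2] at hE ⊢
  exact vl_spec l hE k

theorem siso_vx {x y : ℕ} {p q : PT} (hp : Encodable.decode x = some p)
    (hq : Encodable.decode y = some q) (hEp : EqOn' (domP p) (relP p))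
    (hEq : EqOn' (domP q) (relP q)) :
    SIso (domP p) (domP q) (relP p) (relP q) ↔ ∀ k, vx x k = vx y k := by
  rw [siso_iff hEp hEq]
  constructor
  · intro h k
    apply dec_inj
    rw [vx_spec hp hEp, vx_spec hq hEq]
    exact h (dec k)
  · intro h κ
    obtain ⟨k, rfl⟩ := dec_surj κ
    rw [← vx_spec hp hEp, ← vx_spec hq hEq, h k]

/-- the co-r.e. definition -/
def PX (r : ℕ × ℕ × ℕ) : Bool :=
  (gx r.1 == gx r.2.1) && (!(gx r.1) || (vx r.1 r.2.2 == vx r.2.1 r.2.2))

theorem PX_c : Computable PX := by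
  have a1 : Computable fun r : ℕ × ℕ × ℕ => r.1 := Computable.fst
  have a2 : Computable fun r : ℕ × ℕ × ℕ => r.2.1 := Computable.fst.comp Computable.snd
  have a3 : Computable fun r : ℕ × ℕ × ℕ => r.2.2 := Computable.snd.comp Computable.snd
  exact cand (cbeqB (gx_c.comp a1) (gx_c.comp a2)) (cor (cnot (gx_c.comp a1))
    (cbeqN (vx_c.comp a1 a3) (vx_c.comp a2 a3)))

theorem PX_spec (x y : ℕ) : (∀ t, PX (x, y, t) = true) ↔
    (((¬ ∃ p : PT, Encodable.decode x = some p ∧ EqOn' (domP p) (relP p)) ∧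
      (¬ ∃ q : PT, Encodable.decode y = some q ∧ EqOn' (domP q) (relP q))) ∨
      ∃ p q : PT, Encodable.decode x = some p ∧ Encodable.decode y = some q ∧
        EqOn' (domP p) (relP p) ∧ EqOn' (domP q) (relP q) ∧
        SIso (domP p) (domP q) (relP p) (relP q)) := by
  have hP : (∀ t, PX (x, y, t) = true) ↔ (gx x = gx y ∧ (gx x = true → ∀ t, vx x t = vx y t)) := by
    unfold PX
    simp only [Bool.and_eq_true, beq_iff_eq, Bool.or_eq_true, Bool.not_eq_true']
    constructor
    · intro h
      refine ⟨(h 0).1, fun hg t => ?_⟩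
      rcases (h t).2 with h1 | h1
      · rw [hg] at h1; exact absurd h1 (by simp)
      · exact h1
    · rintro ⟨h1, h2⟩ t
      refine ⟨h1, ?_⟩
      rcases hg : gx x with _ | _
      · exact Or.inl rfl
      · exact Or.inr (h2 hg t)
  rw [hP, ← gx_iff, ← gx_iff]
  constructor
  · rintro ⟨h1, h2⟩
    rcases hg : gx x with _ | _
    · left
      rw [← h1, hg]
      exact ⟨by simp, by simp⟩
    · right
      obtain ⟨p, hp, hEp⟩ := (gx_iff x).1 hg
      obtain ⟨q, hq, hEq⟩ := (gx_iff y).1 (h1 ▸ hg)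
      exact ⟨p, q, hp, hq, hEp, hEq, (siso_vx hp hq hEp hEq).2 (h2 hg)⟩
  · rintro (⟨h1, h2⟩ | ⟨p, q, hp, hq, hEp, hEq, hs⟩)
    · rw [Bool.not_eq_true] at h1 h2
      exact ⟨by rw [h1, h2], fun h => by rw [h1] at h; exact absurd h (by simp)⟩
    · have h1 := (gx_iff x).2 ⟨p, hp, hEp⟩
      have h2 := (gx_iff y).2 ⟨q, hq, hEq⟩
      exact ⟨by rw [h1, h2], fun _ => (siso_vx hp hq hEp hEq).1 hs⟩

end Pool.Agent.H448R5
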