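import Pool.Agent.H448R4.Compl2
import Pool.Agent.H448R4.Iso

set_option autoImplicit false

/-! Pumping for automatic equivalence relations. -/

namespace Pool.Agent.H448R5

open Set Pool.Agent.H448R3 Pool.Agent.H448R4

theorem two_pos {β : Type} [Fintype β] {M : ℕ} (hM : Fintype.card β ≤ M) (f : ℕ → β) :
    ∃ i j, i < j ∧ j ≤ M ∧ f i = f j := by
  obtain ⟨a, b, hab, he⟩ := Fintype.exists_ne_map_eq_of_card_lt (fun i : Fin (M + 1) => f i)
    (by simpa using Nat.lt_succ_of_le hM)
  rcases Nat.lt_or_gt_of_ne (fun h => hab (Fin.ext h)) with h | h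
  · exact ⟨a, b, h, Nat.lt_succ_iff.1 b.2, he⟩
  · exact ⟨b, a, h, Nat.lt_succ_iff.1 a.2, he.symm⟩

theorem pump_down {α β : Type} [Fintype β] (L : Set (List α)) (m : List α → β)
    (h : ∀ u u' x, m u = m u' → (u ++ x ∈ L ↔ u' ++ x ∈ L)) {M : ℕ} (hM : Fintype.card β ≤ M)
    (N : ℕ) {w : List α} (hw : w ∈ L) (hN : N ≤ w.length) :
    ∃ w' ∈ L, N ≤ w'.length ∧ w'.length < N + M := by
  induction' hn : w.length using Nat.strong_induction_on with n ih generalizing w
  by_cases hlt : w.length < N + M
  · exact ⟨w, hw, hN, hlt⟩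
  · obtain ⟨i, j, hij, hj, he⟩ := two_pos hM (fun i => m (w.take i))
    have h1 : w.take j ++ w.drop j ∈ L := by rw [List.take_append_drop]; exact hw
    have h2 : w.take i ++ w.drop j ∈ L := (h _ _ _ he).2 h1
    have h3 : (w.take i ++ w.drop j).length = w.length - (j - i) := by
      rw [List.length_append, List.length_take, List.length_drop]; omega
    refine ih (w.length - (j - i)) ?_ h2 ?_ h3
    · omega
    · omega

theorem pump_up {α β : Type} [Fintype β] (L : Set (List α)) (m : List α → β)
    (h : ∀ u u' x, m u = m u' → (u ++ x ∈ L ↔ u' ++ x ∈ L)) {M : ℕ} (hM : Fintype.card β ≤ M)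
    {w : List α} (hw : w ∈ L) (hN : M ≤ w.length) (N : ℕ) :
    ∃ w' ∈ L, N ≤ w'.length := by
  have key : ∀ k, ∃ w' ∈ L, M ≤ w'.length ∧ k ≤ w'.length := by
    intro k
    induction k with
    | zero => exact ⟨w, hw, hN, Nat.zero_le _⟩
    | succ k ih =>
      obtain ⟨v, h1, h2, h3⟩ := ih
      obtain ⟨i, j, hij, hj, he⟩ := two_pos hM (fun i => m (v.take i))
      have h4 : v.take i ++ v.drop i ∈ L := by rw [List.take_append_drop]; exact h1
      have h5 : v.take j ++ v.drop i ∈ L := (h _ _ _ he).1 h4
      have h6 : (v.take j ++ v.drop i).length = j + (v.length - i) := by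
        rw [List.length_append, List.length_take, List.length_drop]; omega
      exact ⟨_, h5, by omega, by omega⟩
  obtain ⟨w', h1, _, h3⟩ := key N
  exact ⟨w', h1, h3⟩

theorem cv_length (u v : List ℕ) : (cv u v).length = max u.length v.length := by
  unfold cv; simp

theorem cv_getElem? (u v : List ℕ) (i : ℕ) :
    (cv u v)[i]? = if i < max u.length v.length then some (u[i]?, v[i]?) else none := by
  unfold cv
  rw [List.getElem?_map]
  by_cases h : i < max u.length v.length
  · rw [List.getElem?_range h, if_pos h]; rfl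
  · rw [if_neg h, List.getElem?_eq_none (by simpa using h)]; rfl

theorem cv_app (a b x y : List ℕ) (h : a.length = b.length ∨ (a.length ≤ b.length ∧ x = []) ∨
    (b.length ≤ a.length ∧ y = [])) : cv (a ++ x) (b ++ y) = cv a b ++ cv x y := by
  apply List.ext_getElem?
  intro i
  rw [List.getElem?_append, cv_getElem?, cv_getElem?, cv_getElem?, cv_length,
    List.getElem?_append, List.getElem?_append, List.length_append, List.length_append]
  by_cases hi : i < max a.length b.length
  · rw [if_pos hi, if_pos hi, if_pos (by omega)]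
    congr 1
    refine Prod.ext ?_ ?_
    · show (if i < a.length then a[i]? else x[i - a.length]?) = a[i]?
      by_cases h1 : i < a.length
      · rw [if_pos h1]
      · rw [if_neg h1, List.getElem?_eq_none (l := a) (by omega)]
        have hx : x = [] := by
          rcases h with h | ⟨_, h⟩ | ⟨h, _⟩
          · omega
          · exact h
          · omega
        rw [hx]; simp
    · show (if i < b.length then b[i]? else y[i - b.length]?) = b[i]?
      by_cases h1 : i < b.length
      · rw [if_pos h1]
      · rw [if_neg h1, List.getElem?_eq_none (l := b) (by omega)]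
        have hx : y = [] := by
          rcases h with h | ⟨h, _⟩ | ⟨_, h⟩
          · omega
          · omega
          · exact h
        rw [hx]; simp
  · rw [if_neg hi]
    have h1 : ¬ i < a.length := by omega
    have h2 : ¬ i < b.length := by omega
    rw [if_neg h1, if_neg h2]
    rcases h with h | ⟨h, rfl⟩ | ⟨h, rfl⟩
    · have e1 : i - max a.length b.length = i - a.length := by omega
      have e2 : i - b.length = i - a.length := by omega
      rw [e1, e2]
      by_cases h3 : i < max (a.length + x.length) (b.length + y.length)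
      · rw [if_pos h3, if_pos (by omega)]
      · rw [if_neg h3, if_neg (by omega)]
    · have e1 : i - max a.length b.length = i - b.length := by omega
      rw [e1]
      simp only [List.length_nil, List.getElem?_nil]
      by_cases h3 : i < max (a.length + 0) (b.length + y.length)
      · rw [if_pos h3, if_pos (by omega)]
      · rw [if_neg h3, if_neg (by omega)]
    · have e1 : i - max a.length b.length = i - a.length := by omega
      rw [e1]
      simp only [List.length_nil, List.getElem?_nil]
      by_cases h3 : i < max (a.length + x.length) (b.length + 0)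
      · rw [if_pos h3, if_pos (by omega)]
      · rw [if_neg h3, if_neg (by omega)]

/-- state abstraction for a pair of regular languages -/
structure Aut {α β : Type} (D : Set (List ℕ)) (R : Set (List (Option ℕ × Option ℕ)))
    (fD : List ℕ → α) (fR : List (Option ℕ × Option ℕ) → β) : Prop where
  hD : ∀ u u' x, fD u = fD u' → (u ++ x ∈ D ↔ u' ++ x ∈ D)
  hR : ∀ u u' x, fR u = fR u' → (u ++ x ∈ R ↔ u' ++ x ∈ R)

/-- the relation given by a set of convolutions -/
def rl (R : Set (List (Option ℕ × Option ℕ))) (u v : List ℕ) : Prop := cv u v ∈ R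

section

variable {α β : Type} [Fintype α] [Fintype β] {D : Set (List ℕ)}
  {R : Set (List (Option ℕ × Option ℕ))} {fD : List ℕ → α}
  {fR : List (Option ℕ × Option ℕ) → β}

/-! ### tuples -/

theorem tuple_short {ι : Type} [Fintype ι] [DecidableEq ι] (H : Aut D R fD fR)
    (Φ : (ι → Prop) → (ι → ι → Prop) → Prop) {M : ℕ}
    (hM : Fintype.card ((ι → Bool) × (ι → α) × (ι → ι → β)) ≤ M)
    (z : ι → List ℕ) (hz : Φ (fun k => z k ∈ D) (fun k l => rl R (z k) (z l))) :
    ∃ z : ι → List ℕ, (∀ k, (z k).length < M) ∧
      Φ (fun k => z k ∈ D) (fun k l => rl R (z k) (z l)) := by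
  classical
  have key : ∀ n, ∀ z : ι → List ℕ, (∀ k, (z k).length ≤ n) →
      Φ (fun k => z k ∈ D) (fun k l => rl R (z k) (z l)) →
      ∃ z : ι → List ℕ, (∀ k, (z k).length < M) ∧
        Φ (fun k => z k ∈ D) (fun k l => rl R (z k) (z l)) := by
    intro n
    induction n with
    | zero =>
      intro z hz1 hz2
      by_cases hM0 : 0 < M
      · exact ⟨z, fun k => lt_of_le_of_lt (hz1 k) hM0, hz2⟩
      · exfalso
        have : 0 < Fintype.card ((ι → Bool) × (ι → α) × (ι → ι → β)) :=
          Fintype.card_pos_iff.2 ⟨(fun _ => true, fun k => fD (z k), fun _ _ => fR [])⟩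
        omega
    | succ n ih =>
      intro z hz1 hz2
      by_cases hn : n + 1 < M
      · exact ⟨z, fun k => lt_of_le_of_lt (hz1 k) hn, hz2⟩
      · obtain ⟨i, j, hij, hj, he⟩ := two_pos hM (fun i =>
          ((fun k => decide (i ≤ (z k).length), fun k => fD ((z k).take i),
            fun k l => fR (cv ((z k).take i) ((z l).take i))) :
              (ι → Bool) × (ι → α) × (ι → ι → β)))
        simp only [Prod.mk.injEq] at he
        obtain ⟨he1, he2, he3⟩ := he
        have f1 : ∀ k, (i ≤ (z k).length ↔ j ≤ (z k).length) := by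
          intro k
          have := congrFun he1 k
          simpa using this
        have f2 : ∀ k, fD ((z k).take i) = fD ((z k).take j) := fun k => congrFun he2 k
        have f3 : ∀ k l, fR (cv ((z k).take i) ((z l).take i)) =
            fR (cv ((z k).take j) ((z l).take j)) := fun k l => congrFun (congrFun he3 k) l
        refine ih (fun k => (z k).take i ++ (z k).drop j) ?_ ?_
        · intro k
          rw [List.length_append, List.length_take, List.length_drop]
          have := f1 k
          have := hz1 k
          omega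
        · have g1 : ∀ k, ((z k).take i ++ (z k).drop j ∈ D) = (z k ∈ D) := by
            intro k
            have := H.hD _ _ ((z k).drop j) (f2 k)
            rw [List.take_append_drop] at this
            exact propext this
          have g2 : ∀ k l, rl R ((z k).take i ++ (z k).drop j) ((z l).take i ++ (z l).drop j) =
              rl R (z k) (z l) := by
            intro k l
            have h1 := H.hR _ _ (cv ((z k).drop j) ((z l).drop j)) (f3 k l)
            have hk := f1 k
            have hl := f1 l
            have len : ∀ (m : ℕ) (a : List ℕ), (a.take m).length = min m a.length :=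
              fun m a => List.length_take
            have e1 := cv_app ((z k).take i) ((z l).take i) ((z k).drop j) ((z l).drop j) (by
              by_cases a1 : i ≤ (z k).length
              · by_cases a2 : i ≤ (z l).length
                · left; rw [len, len]; omega
                · right; right
                  exact ⟨by rw [len, len]; omega, List.drop_eq_nil_of_le (by omega)⟩
              · by_cases a2 : i ≤ (z l).length
                · right; left
                  exact ⟨by rw [len, len]; omega, List.drop_eq_nil_of_le (by omega)⟩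
                · by_cases a3 : (z k).length ≤ (z l).length
                  · right; left
                    exact ⟨by rw [len, len]; omega, List.drop_eq_nil_of_le (by omega)⟩
                  · right; right
                    exact ⟨by rw [len, len]; omega, List.drop_eq_nil_of_le (by omega)⟩)
            have e2 := cv_app ((z k).take j) ((z l).take j) ((z k).drop j) ((z l).drop j) (by
              by_cases a1 : j ≤ (z k).length
              · by_cases a2 : j ≤ (z l).length
                · left; rw [len, len]; omega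
                · right; right
                  exact ⟨by rw [len, len]; omega, List.drop_eq_nil_of_le (by omega)⟩
              · by_cases a2 : j ≤ (z l).length
                · right; left
                  exact ⟨by rw [len, len]; omega, List.drop_eq_nil_of_le (by omega)⟩
                · by_cases a3 : (z k).length ≤ (z l).length
                  · right; left
                    exact ⟨by rw [len, len]; omega, List.drop_eq_nil_of_le (by omega)⟩
                  · right; right
                    exact ⟨by rw [len, len]; omega, List.drop_eq_nil_of_le (by omega)⟩)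
            rw [← e1, ← e2, List.take_append_drop, List.take_append_drop] at h1
            exact propext h1
          have g3 : (fun k => (z k).take i ++ (z k).drop j ∈ D) = fun k => z k ∈ D :=
            funext g1
          have g4 : (fun k l => rl R ((z k).take i ++ (z k).drop j)
              ((z l).take i ++ (z l).drop j)) = fun k l => rl R (z k) (z l) :=
            funext fun k => funext fun l => g2 k l
          show Φ (fun k => (z k).take i ++ (z k).drop j ∈ D) (fun k l =>
            rl R ((z k).take i ++ (z k).drop j) ((z l).take i ++ (z l).drop j))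
          rw [g3, g4]
          exact hz2
  exact key (Finset.univ.sup fun k => (z k).length) z
    (fun k => Finset.le_sup (f := fun k => (z k).length) (Finset.mem_univ k)) hz

/-! ### classes -/

theorem cls_pump (H : Aut D R fD fR) {c : ℕ} (hc : Fintype.card (α × β) ≤ c) {u w : List ℕ}
    (hw : w ∈ cls D (rl R) u) (hl : u.length + c ≤ w.length) :
    (∃ w' ∈ cls D (rl R) u, u.length + c ≤ w'.length ∧ w'.length < u.length + c + c) ∧
    (∀ N, ∃ w' ∈ cls D (rl R) u, N ≤ w'.length) := by
  have hcv : ∀ v0 y : List ℕ, v0.length = u.length → cv u (v0 ++ y) = cv u v0 ++ cv [] y := by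
    intro v0 y h
    have := cv_app u v0 [] y (Or.inl h.symm)
    rwa [List.append_nil] at this
  have hcv0 : ∀ y x : List ℕ, cv [] (y ++ x) = cv [] y ++ cv [] x := by
    intro y x
    have := cv_app [] y [] x (Or.inr (Or.inl ⟨by simp, rfl⟩))
    simpa using this
  obtain ⟨v0, y0, h0, h1⟩ : ∃ v0 y0 : List ℕ, w = v0 ++ y0 ∧ v0.length = u.length :=
    ⟨w.take u.length, w.drop u.length, (List.take_append_drop _ _).symm, by
      rw [List.length_take]; omega⟩
  have hlw : w.length = u.length + y0.length := by rw [h0, List.length_append, h1]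
  let L : Set (List ℕ) := {y | v0 ++ y ∈ cls D (rl R) u}
  let m : List ℕ → α × β := fun y => (fD (v0 ++ y), fR (cv u v0 ++ cv [] y))
  have hm : ∀ a a' x, m a = m a' → (a ++ x ∈ L ↔ a' ++ x ∈ L) := by
    intro a a' x he
    simp only [m, Prod.mk.injEq] at he
    show (v0 ++ (a ++ x) ∈ D ∧ cv u (v0 ++ (a ++ x)) ∈ R) ↔
      (v0 ++ (a' ++ x) ∈ D ∧ cv u (v0 ++ (a' ++ x)) ∈ R)
    rw [hcv _ _ h1, hcv _ _ h1, hcv0, hcv0, ← List.append_assoc, ← List.append_assoc,
      ← List.append_assoc, ← List.append_assoc, H.hD _ _ x he.1, H.hR _ _ (cv [] x) he.2]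
  have hy0 : y0 ∈ L := by show v0 ++ y0 ∈ cls D (rl R) u; rw [← h0]; exact hw
  constructor
  · obtain ⟨y, g1, g2, g3⟩ := pump_down L m hm hc c hy0 (by omega)
    exact ⟨v0 ++ y, g1, by rw [List.length_append]; omega, by rw [List.length_append]; omega⟩
  · intro N
    obtain ⟨y, g1, g2⟩ := pump_up L m hm hc hy0 (by omega) N
    exact ⟨v0 ++ y, g1, by rw [List.length_append]; omega⟩

theorem infinite_of_len {S : Set (List ℕ)} (h : ∀ N, ∃ w ∈ S, N ≤ w.length) : S.Infinite := by
  intro hf
  obtain ⟨B, hB⟩ := (hf.image List.length).bddAbove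
  obtain ⟨w, hw, h1⟩ := h (B + 1)
  have := hB (mem_image_of_mem List.length hw)
  omega

/-! ### macros -/

open Classical in
/-- the type of a tuple below a word -/
noncomputable def tyT (fD : List ℕ → α) (fR : List (Option ℕ × Option ℕ) → β) (K : ℕ)
    (u : List ℕ) (v : Fin K → List ℕ) :
    (Fin K → Bool × α × β) × (Fin K → Fin K → Bool) :=
  (fun j => (decide ((v j).length = u.length), fD (v j), fR (cv u (v j))),
    fun j l => decide (v j = v l))

/-- the macro of a word -/
noncomputable def mu (fD : List ℕ → α) (fR : List (Option ℕ × Option ℕ) → β) (K : ℕ)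
    (u : List ℕ) : α × Set ((Fin K → Bool × α × β) × (Fin K → Fin K → Bool)) :=
  (fD u, {t | ∃ v : Fin K → List ℕ, (∀ j, (v j).length ≤ u.length) ∧ t = tyT fD fR K u v})

omit [Fintype α] [Fintype β] in
theorem transfer (H : Aut D R fD fR) {K : ℕ} {u u' : List ℕ} (h : mu fD fR K u = mu fD fR K u')
    (x : List ℕ) (w : Fin K → List ℕ) : ∃ w' : Fin K → List ℕ,
    (∀ j, (w j ∈ cls D (rl R) (u ++ x) ↔ w' j ∈ cls D (rl R) (u' ++ x))) ∧
    (∀ j, ((w j).length < u.length ∧ (w' j).length < u'.length) ∨
      ∃ d, (w j).length = u.length + d ∧ (w' j).length = u'.length + d) ∧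
    (∀ j l, w j = w l ↔ w' j = w' l) := by
  have h2 := congrArg Prod.snd h
  have hmem : tyT fD fR K u (fun j => (w j).take u.length) ∈ (mu fD fR K u).2 :=
    ⟨_, fun j => by rw [List.length_take]; omega, rfl⟩
  rw [h] at hmem
  obtain ⟨v', hv', ht⟩ := hmem
  unfold tyT at ht
  rw [Prod.mk.injEq] at ht
  obtain ⟨ht1, ht2⟩ := ht
  have t1 : ∀ j, (((w j).take u.length).length = u.length ↔ (v' j).length = u'.length) := by
    intro j
    have := congrFun ht1 j
    rw [Prod.mk.injEq] at this
    simpa only [decide_eq_decide] using this.1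
  have t2 : ∀ j, fD ((w j).take u.length) = fD (v' j) := by
    intro j
    have := congrFun ht1 j
    rw [Prod.mk.injEq, Prod.mk.injEq] at this
    exact this.2.1
  have t3 : ∀ j, fR (cv u ((w j).take u.length)) = fR (cv u' (v' j)) := by
    intro j
    have := congrFun ht1 j
    rw [Prod.mk.injEq, Prod.mk.injEq] at this
    exact this.2.2
  have t4 : ∀ j l, ((w j).take u.length = (w l).take u.length ↔ v' j = v' l) := by
    intro j l
    have := congrFun (congrFun ht2 j) l
    simpa only [decide_eq_decide] using this
  have tl : ∀ j, ((w j).take u.length).length = min u.length (w j).length :=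
    fun j => List.length_take
  have td : ∀ j, ((w j).drop u.length).length = (w j).length - u.length :=
    fun j => List.length_drop
  have hlen : ∀ j, ((w j).length < u.length ∧ (v' j ++ (w j).drop u.length).length < u'.length ∧
      (w j).drop u.length = [] ∧ (w j).take u.length = w j ∧ (v' j).length < u'.length) ∨
      ∃ d, (w j).length = u.length + d ∧ (v' j ++ (w j).drop u.length).length = u'.length + d ∧
        (v' j).length = u'.length ∧ ((w j).take u.length).length = u.length := by
    intro j
    have a1 := t1 j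
    have a2 := tl j
    have a3 := td j
    have a4 := hv' j
    by_cases hj : (w j).length < u.length
    · left
      have e1 : (w j).drop u.length = [] := List.drop_eq_nil_of_le (by omega)
      refine ⟨hj, ?_, e1, List.take_of_length_le (by omega), by omega⟩
      rw [e1, List.append_nil]
      omega
    · right
      refine ⟨(w j).length - u.length, by omega, ?_, by omega, by omega⟩
      rw [List.length_append, td j]
      omega
  refine ⟨fun j => v' j ++ (w j).drop u.length, ?_, ?_, ?_⟩
  · intro j
    have e1 : cv (u ++ x) ((w j).take u.length ++ (w j).drop u.length) =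
        cv u ((w j).take u.length) ++ cv x ((w j).drop u.length) := by
      apply cv_app
      rcases hlen j with ⟨b1, b2, b3, b4, b5⟩ | ⟨d, b1, b2, b3, b4⟩
      · right; right; exact ⟨by rw [tl j]; omega, b3⟩
      · left; omega
    have e2 : cv (u' ++ x) (v' j ++ (w j).drop u.length) =
        cv u' (v' j) ++ cv x ((w j).drop u.length) := by
      apply cv_app
      rcases hlen j with ⟨b1, b2, b3, b4, b5⟩ | ⟨d, b1, b2, b3, b4⟩
      · right; right; exact ⟨by omega, b3⟩
      · left; omega
    have e3 : w j = (w j).take u.length ++ (w j).drop u.length :=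
      (List.take_append_drop _ _).symm
    show (w j ∈ D ∧ cv (u ++ x) (w j) ∈ R) ↔
      (v' j ++ (w j).drop u.length ∈ D ∧ cv (u' ++ x) (v' j ++ (w j).drop u.length) ∈ R)
    rw [e2, ← H.hR _ _ _ (t3 j), ← H.hD _ _ _ (t2 j), ← e1, ← e3]
  · intro j
    rcases hlen j with ⟨b1, b2, b3, b4, b5⟩ | ⟨d, b1, b2, b3, b4⟩
    · exact Or.inl ⟨b1, b2⟩
    · exact Or.inr ⟨d, b1, b2⟩
  · intro j l
    constructor
    · intro he
      show v' j ++ (w j).drop u.length = v' l ++ (w l).drop u.length
      rw [← he, (t4 j l).1 (by rw [he])]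
    · intro he
      replace he : v' j ++ (w j).drop u.length = v' l ++ (w l).drop u.length := he
      have hle := congrArg List.length he
      rcases hlen j with ⟨b1, b2, b3, b4, b5⟩ | ⟨d, b1, b2, b3, b4⟩
      · rcases hlen l with ⟨c1, c2, c3, c4, c5⟩ | ⟨d', c1, c2, c3, c4⟩
        · rw [b3, c3, List.append_nil, List.append_nil] at he
          rw [← b4, ← c4, (t4 j l).2 he]
        · omega
      · rcases hlen l with ⟨c1, c2, c3, c4, c5⟩ | ⟨d', c1, c2, c3, c4⟩
        · omega
        · obtain ⟨g1, g2⟩ := List.append_inj he (by omega)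
          rw [← List.take_append_drop u.length (w j), ← List.take_append_drop u.length (w l),
            g2, (t4 j l).2 g1]

theorem le_encard_iff {γ : Type} (S : Set γ) (j : ℕ) :
    (j : ℕ∞) ≤ S.encard ↔ ∃ w : Fin j → γ, Function.Injective w ∧ ∀ i, w i ∈ S := by
  constructor
  · intro h
    obtain ⟨t, ht, he⟩ := Set.exists_subset_encard_eq h
    have hf : t.Finite := Set.finite_of_encard_eq_coe he
    have hc : t.ncard = j := by
      have := hf.cast_ncard_eq
      rw [he] at this
      exact_mod_cast this
    have : Fintype t := hf.fintype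
    have hc' : Fintype.card t = j := by
      rw [← hc, ← Nat.card_coe_set_eq, Nat.card_eq_fintype_card]
    let e := (Fintype.equivFinOfCardEq hc').symm
    exact ⟨fun i => (e i : γ), fun a b hab => e.injective (Subtype.ext hab), fun i => ht (e i).2⟩
  · rintro ⟨w, hw, hS⟩
    have h1 : (Set.range w).encard = j := by
      rw [← Set.image_univ, hw.injOn.encard_image, Set.encard_univ]
      simp
    rw [← h1]
    exact Set.encard_le_encard (by rintro _ ⟨i, rfl⟩; exact hS i)

theorem le_of_mu (H : Aut D R fD fR) {K : ℕ} {u u' : List ℕ} (h : mu fD fR K u = mu fD fR K u')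
    (x : List ℕ) {j : ℕ} (hj : j ≤ K) (hle : (j : ℕ∞) ≤ (cls D (rl R) (u ++ x)).encard) :
    (j : ℕ∞) ≤ (cls D (rl R) (u' ++ x)).encard := by
  rw [le_encard_iff] at hle ⊢
  obtain ⟨w, hw, hC⟩ := hle
  obtain ⟨w', h1, _, h3⟩ := transfer H h x (fun i => if hi : (i : ℕ) < j then w ⟨i, hi⟩ else [])
  refine ⟨fun i => w' (Fin.castLE hj i), ?_, ?_⟩
  · intro a b hab
    have := (h3 (Fin.castLE hj a) (Fin.castLE hj b)).2 hab
    simp only [Fin.val_castLE, a.2, b.2, dif_pos] at this
    exact hw this
  · intro i
    refine (h1 (Fin.castLE hj i)).1 ?_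
    simp only [Fin.val_castLE, i.2, dif_pos]
    exact hC i

/-- shortest members of classes of a given size -/
def Lk (D : Set (List ℕ)) (R : Set (List (Option ℕ × Option ℕ))) (κ : ℕ∞) : Set (List ℕ) :=
  {u | u ∈ D ∧ (cls D (rl R) u).encard = κ ∧ ∀ v ∈ cls D (rl R) u, u.length ≤ v.length}

theorem len_lt_of {a b c d x : ℕ} (h : (a < c ∧ b < d) ∨ ∃ e, a = c + e ∧ b = d + e)
    (h' : b < d + x) : a < c + x := by
  rcases h with h | ⟨e, h1, h2⟩
  · omega
  · omega

/-- the length bound above which a class is infinite -/
theorem cls_top_iff (H : Aut D R fD fR) {c : ℕ} (hc : Fintype.card (α × β) ≤ c) {A : ℕ}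
    (hA : ∀ u ∈ D, ∀ a ∈ u, a < A) (u : List ℕ) :
    (cls D (rl R) u).encard = ⊤ ↔ ∃ w ∈ cls D (rl R) u, u.length + c ≤ w.length := by
  rw [Set.encard_eq_top_iff]
  constructor
  · intro hi
    by_contra hno
    push Not at hno
    apply hi
    have hfin : {l : List (Fin A) | l.length < u.length + c}.Finite := by
      exact List.finite_length_lt (Fin A) (u.length + c)
    refine (hfin.image (fun l => l.map Fin.val)).subset ?_
    intro w hw
    refine ⟨w.pmap (fun a ha => ⟨a, ha⟩) (fun a ha => hA w hw.1 a ha), ?_, ?_⟩
    · show (w.pmap _ _).length < _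
      rw [List.length_pmap]; exact hno w hw
    · show List.map Fin.val (w.pmap _ _) = w
      rw [List.map_pmap]
      simp
  · rintro ⟨w, hw, hl⟩
    exact infinite_of_len (cls_pump H hc hw hl).2

/-- admissible sizes for tuples of length `K` -/
def Adm (κ : ℕ∞) (K : ℕ) : Prop := 1 ≤ K ∧ (κ = ⊤ ∨ ∃ k : ℕ, κ = k ∧ k + 1 ≤ K)

theorem Lk_congr_aux (H : Aut D R fD fR) {A : ℕ} (hA : ∀ u ∈ D, ∀ a ∈ u, a < A) {K : ℕ} {κ : ℕ∞}
    (hK : Adm κ K) {u u' : List ℕ} (h : mu fD fR K u = mu fD fR K u') (x : List ℕ)
    (hu : u ++ x ∈ Lk D R κ) : u' ++ x ∈ Lk D R κ := by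
  obtain ⟨h1, h2, h3⟩ := hu
  refine ⟨?_, ?_, ?_⟩
  · exact (H.hD _ _ x (congrArg Prod.fst h)).1 h1
  · rcases hK.2 with rfl | ⟨k, rfl, hk⟩
    · rw [cls_top_iff H (le_refl _) hA] at h2 ⊢
      obtain ⟨w, hw, hl⟩ := h2
      obtain ⟨w', g1, g2, _⟩ := transfer H h x (fun _ => w)
      refine ⟨w' ⟨0, hK.1⟩, (g1 _).1 hw, ?_⟩
      rw [List.length_append] at hl ⊢
      rcases g2 ⟨0, hK.1⟩ with ⟨a1, a2⟩ | ⟨d, a1, a2⟩
      · omega
      · omega
    · refine le_antisymm ?_ ?_
      · by_contra hlt
        rw [not_le] at hlt
        have h5 : ((k + 1 : ℕ) : ℕ∞) ≤ (cls D (rl R) (u' ++ x)).encard := by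
          push_cast
          exact Order.add_one_le_of_lt hlt
        have h6 := le_of_mu H h.symm x hk h5
        rw [h2] at h6
        have : k + 1 ≤ k := by exact_mod_cast h6
        omega
      · exact le_of_mu H h x (by omega) h2.ge
  · intro v hv
    by_contra hlt
    rw [not_le] at hlt
    obtain ⟨w', g1, g2, _⟩ := transfer H h.symm x (fun _ => v)
    have h5 := h3 _ ((g1 ⟨0, hK.1⟩).1 hv)
    have h6 := g2 ⟨0, hK.1⟩
    rw [List.length_append] at h5 hlt
    rcases h6 with ⟨a1, a2⟩ | ⟨d, a1, a2⟩
    · omega
    · omega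

theorem Lk_congr (H : Aut D R fD fR) {A : ℕ} (hA : ∀ u ∈ D, ∀ a ∈ u, a < A) {K : ℕ} {κ : ℕ∞}
    (hK : Adm κ K) (u u' : List ℕ) (x : List ℕ) (h : mu fD fR K u = mu fD fR K u') :
    u ++ x ∈ Lk D R κ ↔ u' ++ x ∈ Lk D R κ :=
  ⟨Lk_congr_aux H hA hK h x, Lk_congr_aux H hA hK h.symm x⟩

theorem card_mu {K : ℕ} {dT rT : ℕ} (h1 : Fintype.card α = 2 ^ dT) (h2 : Fintype.card β = 2 ^ rT) :
    Fintype.card (α × Set ((Fin K → Bool × α × β) × (Fin K → Fin K → Bool))) =
      2 ^ (dT + 2 ^ ((1 + dT + rT) * K + K * K)) := by
  classical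
  rw [Fintype.card_prod, Fintype.card_set, Fintype.card_prod, Fintype.card_pi, Fintype.card_pi]
  simp only [Fintype.card_prod, Fintype.card_pi, Fintype.card_bool, h1, h2, Finset.prod_const,
    Finset.card_univ, Fintype.card_fin]
  rw [pow_add 2 dT]
  congr 2
  have e1 : 2 * (2 ^ dT * 2 ^ rT) = 2 ^ (1 + dT + rT) := by rw [pow_add, pow_add]; ring
  rw [e1, ← pow_mul, ← pow_mul, ← pow_add]

end

end Pool.Agent.H448R5
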