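import Pool.Agent.H448R5.Count

set_option autoImplicit false

/-! Runs of automata given by lists of transitions. -/

namespace Pool.Agent.H448R5

open Set Pool.Agent.H448R3 Pool.Agent.H448R4

/-- membership test -/
def inL (S : List ℕ) (q : ℕ) : Bool := decide (S.idxOf q < S.length)

theorem inL_iff (S : List ℕ) (q : ℕ) : inL S q = true ↔ q ∈ S := by
  unfold inL
  rw [decide_eq_true_eq, List.idxOf_lt_length_iff]

section run

variable {β : Type} [DecidableEq β]

/-- one step -/
def stp (T : List (ℕ × β × ℕ)) (S : List ℕ) (a : β) : List ℕ :=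
  T.filterMap fun t => bif inL S t.1 && decide (t.2.1 = a) then some t.2.2 else none

theorem mem_stp (T : List (ℕ × β × ℕ)) (S : List ℕ) (a : β) (q' : ℕ) :
    q' ∈ stp T S a ↔ ∃ q ∈ S, (q, a, q') ∈ T := by
  unfold stp
  rw [List.mem_filterMap]
  constructor
  · rintro ⟨⟨q, b, r⟩, h1, h2⟩
    rcases h : inL S q && decide (b = a) with _ | _
    · simp only [h, cond_false] at h2
      exact absurd h2 (by simp)
    · simp only [h, cond_true, Option.some.injEq] at h2
      rw [Bool.and_eq_true, inL_iff, decide_eq_true_eq] at h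
      obtain ⟨h3, h4⟩ := h
      subst h4; subst h2
      exact ⟨q, h3, h1⟩
  · rintro ⟨q, hq, hT⟩
    refine ⟨(q, a, q'), hT, ?_⟩
    have h : (inL S q && decide (a = a)) = true := by
      rw [Bool.and_eq_true, inL_iff, decide_eq_true_eq]
      exact ⟨hq, rfl⟩
    show (bif inL S q && decide (a = a) then some q' else none) = some q'
    rw [h]; rfl

/-- the run -/
def runL (T : List (ℕ × β × ℕ)) (S : List ℕ) (w : List β) : List ℕ := w.foldl (stp T) S

/-- acceptance -/
def accL (T : List (ℕ × β × ℕ)) (q0 : ℕ) (F : List ℕ) (w : List β) : Bool :=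
  decide (0 < ((runL T [q0] w).filterMap fun q => bif inL F q then some q else none).length)

theorem accL_iff (T : List (ℕ × β × ℕ)) (q0 : ℕ) (F : List ℕ) (w : List β) :
    accL T q0 F w = true ↔ ∃ q ∈ runL T [q0] w, q ∈ F := by
  unfold accL
  rw [decide_eq_true_eq, List.length_pos_iff_exists_mem]
  constructor
  · rintro ⟨a, ha⟩
    rw [List.mem_filterMap] at ha
    obtain ⟨q, h1, h2⟩ := ha
    rcases h : inL F q with _ | _
    · simp only [h, cond_false] at h2
      exact absurd h2 (by simp)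
    · exact ⟨q, h1, (inL_iff F q).1 h⟩
  · rintro ⟨q, h1, h2⟩
    refine ⟨q, ?_⟩
    rw [List.mem_filterMap]
    refine ⟨q, h1, ?_⟩
    simp only [(inL_iff F q).2 h2, cond_true]

theorem nfa_iff (T : List (ℕ × β × ℕ)) (q0 : ℕ) (F : List ℕ) (P : Finset (ℕ × β × ℕ))
    (F' : Finset ℕ) (hP : ∀ x, x ∈ P ↔ x ∈ T) (hF : ∀ x, x ∈ F' ↔ x ∈ F) (w : List β) :
    w ∈ (⟨fun q a => {q' | (q, a, q') ∈ P}, {q0}, (F' : Set ℕ)⟩ : NFA β ℕ).accepts ↔
      accL T q0 F w = true := by
  have key : ∀ (w : List β) (S' : Set ℕ) (S : List ℕ), (∀ q, q ∈ S' ↔ q ∈ S) → ∀ q,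
      (q ∈ (w.foldl (⟨fun q a => {q' | (q, a, q') ∈ P}, {q0}, (F' : Set ℕ)⟩ :
        NFA β ℕ).stepSet S' : Set ℕ) ↔ q ∈ runL T S w) := by
    intro w
    induction w with
    | nil => intro S' S h q; exact h q
    | cons a w ih =>
      intro S' S h q
      refine ih _ (stp T S a) ?_ q
      intro q'
      rw [NFA.mem_stepSet, mem_stp]
      constructor
      · rintro ⟨t, ht, h1⟩
        exact ⟨t, (h t).1 ht, (hP _).1 h1⟩
      · rintro ⟨t, ht, h1⟩
        exact ⟨t, (h t).2 ht, (hP _).2 h1⟩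
  rw [accL_iff]
  show (∃ S ∈ (F' : Set ℕ), S ∈ (w.foldl (⟨fun q a => {q' | (q, a, q') ∈ P}, {q0},
    (F' : Set ℕ)⟩ : NFA β ℕ).stepSet {q0} : Set ℕ)) ↔ _
  have h0 := key w {q0} [q0] (fun q => by rw [mem_singleton_iff, List.mem_singleton])
  constructor
  · rintro ⟨q, h1, h2⟩
    exact ⟨q, (h0 q).1 h2, (hF q).1 h1⟩
  · rintro ⟨q, h1, h2⟩
    exact ⟨q, (hF q).2 h2, (h0 q).2 h1⟩

theorem runL_append (T : List (ℕ × β × ℕ)) (S : List ℕ) (w x : List β) :
    runL T S (w ++ x) = runL T (runL T S w) x := by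
  unfold runL; rw [List.foldl_append]

theorem runL_congr (T : List (ℕ × β × ℕ)) (x : List β) (S S' : List ℕ)
    (h : ∀ q, q ∈ S ↔ q ∈ S') (q : ℕ) : q ∈ runL T S x ↔ q ∈ runL T S' x := by
  induction x generalizing S S' with
  | nil => exact h q
  | cons a x ih =>
    refine ih (stp T S a) (stp T S' a) ?_
    intro q'
    rw [mem_stp, mem_stp]
    constructor
    · rintro ⟨t, ht, h1⟩
      exact ⟨t, (h t).1 ht, h1⟩
    · rintro ⟨t, ht, h1⟩
      exact ⟨t, (h t).2 ht, h1⟩

/-- list of states -/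
def Qs (T : List (ℕ × β × ℕ)) (q0 : ℕ) : List ℕ := q0 :: T.map (fun t => t.2.2)

omit [DecidableEq β] in
theorem Qs_length (T : List (ℕ × β × ℕ)) (q0 : ℕ) : (Qs T q0).length = T.length + 1 := by
  unfold Qs; simp

theorem runL_sub (T : List (ℕ × β × ℕ)) (q0 : ℕ) (w : List β) :
    ∀ q ∈ runL T [q0] w, q ∈ Qs T q0 := by
  induction w using List.reverseRecOn with
  | nil =>
    intro q hq
    have : q = q0 := List.mem_singleton.1 hq
    subst this
    exact List.mem_cons_self
  | append_singleton w a ih =>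
    intro q hq
    rw [runL_append] at hq
    have hq' : q ∈ stp T (runL T [q0] w) a := hq
    rw [mem_stp] at hq'
    obtain ⟨t, _, h1⟩ := hq'
    unfold Qs
    exact List.mem_cons_of_mem _ (List.mem_map.2 ⟨_, h1, rfl⟩)

/-- state abstraction -/
def fS (T : List (ℕ × β × ℕ)) (q0 : ℕ) (w : List β) : Fin (T.length + 1) → Bool :=
  fun i => decide ((Qs T q0).getD i 0 ∈ runL T [q0] w)

theorem fS_congr (T : List (ℕ × β × ℕ)) (q0 : ℕ) (F : List ℕ) (u u' x : List β)
    (h : fS T q0 u = fS T q0 u') : accL T q0 F (u ++ x) = true ↔ accL T q0 F (u' ++ x) = true := by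
  have h1 : ∀ u u' : List β, fS T q0 u = fS T q0 u' → ∀ q, q ∈ runL T [q0] u →
      q ∈ runL T [q0] u' := by
    intro u u' h q hq
    obtain ⟨i, hi, he⟩ := List.getElem_of_mem (runL_sub T q0 u q hq)
    have h2 := congrFun h ⟨i, by rw [← Qs_length T q0]; exact hi⟩
    unfold fS at h2
    simp only [decide_eq_decide] at h2
    rw [List.getD_eq_getElem _ _ hi, he] at h2
    exact h2.1 hq
  rw [accL_iff, accL_iff]
  have h2 : ∀ q, q ∈ runL T [q0] (u ++ x) ↔ q ∈ runL T [q0] (u' ++ x) := by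
    intro q
    rw [runL_append, runL_append]
    exact runL_congr T x _ _ (fun q => ⟨h1 u u' h q, h1 u' u h.symm q⟩) q
  constructor
  · rintro ⟨q, h3, h4⟩
    exact ⟨q, (h2 q).1 h3, h4⟩
  · rintro ⟨q, h3, h4⟩
    exact ⟨q, (h2 q).2 h3, h4⟩

theorem runL_letters (T : List (ℕ × β × ℕ)) (w : List β) (S : List ℕ)
    (h : ∃ q, q ∈ runL T S w) : ∀ a ∈ w, ∃ t ∈ T, t.2.1 = a := by
  have h0 : ∀ w : List β, ¬ ∃ q, q ∈ runL T [] w := by
    intro w
    induction w with
    | nil => rintro ⟨q, hq⟩; exact absurd hq (by simp [runL])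
    | cons a w ih =>
      rintro ⟨q, hq⟩
      apply ih
      refine ⟨q, (runL_congr T w (stp T [] a) [] ?_ q).1 hq⟩
      intro q'
      rw [mem_stp]
      simp
  induction w generalizing S with
  | nil => intro a ha; exact absurd ha (by simp)
  | cons b w ih =>
    obtain ⟨q, hq⟩ := h
    have hq' : q ∈ runL T (stp T S b) w := hq
    intro a ha
    rcases List.mem_cons.1 ha with rfl | ha
    · by_contra hno
      apply h0 w
      refine ⟨q, (runL_congr T w (stp T S a) [] ?_ q).1 hq'⟩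
      intro q'
      rw [mem_stp]
      constructor
      · rintro ⟨t, _, h1⟩
        exact absurd ⟨_, h1, rfl⟩ hno
      · intro h1
        exact absurd h1 (by simp)
    · exact ih _ ⟨q, hq'⟩ a ha

end run

/-- bound for letters -/
def Aof (T : List (ℕ × ℕ × ℕ)) : ℕ := T.foldr (fun t s => t.2.1 + s + 1) 0

theorem lt_Aof (T : List (ℕ × ℕ × ℕ)) : ∀ t ∈ T, t.2.1 < Aof T := by
  induction T with
  | nil => intro t ht; exact absurd ht (by simp)
  | cons a T ih =>
    intro t ht
    have : Aof (a :: T) = a.2.1 + Aof T + 1 := rfl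
    rw [this]
    rcases List.mem_cons.1 ht with rfl | ht
    · omega
    · have := ih t ht
      omega

/-! ### computability -/

theorem inL_prim : Primrec₂ inL := by
  have h1 : Primrec₂ fun (S : List ℕ) (q : ℕ) => S.idxOf q := by
    have : Primrec₂ (@List.idxOf ℕ _) := Primrec.list_idxOf
    exact (this.comp Primrec.snd Primrec.fst).to₂
  have h2 : Primrec₂ fun (S : List ℕ) (_ : ℕ) => S.length :=
    (Primrec.list_length.comp Primrec.fst).to₂
  have h3 : Primrec₂ fun m n : ℕ => decide (m < n) := Primrec.nat_lt.decide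
  exact (h3.comp h1 h2).to₂

section prim

variable {β : Type} [DecidableEq β] [Primcodable β]

theorem stp_prim : Primrec fun r : List (ℕ × β × ℕ) × List ℕ × β => stp r.1 r.2.1 r.2.2 := by
  have d : Primrec₂ fun a b : β => decide (a = b) := Primrec.eq.decide
  have c1 : Primrec fun s : (List (ℕ × β × ℕ) × List ℕ × β) × (ℕ × β × ℕ) => inL s.1.2.1 s.2.1 :=
    inL_prim.comp (Primrec.fst.comp (Primrec.snd.comp Primrec.fst)) (Primrec.fst.comp Primrec.snd)
  have c2 : Primrec fun s : (List (ℕ × β × ℕ) × List ℕ × β) × (ℕ × β × ℕ) =>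
      decide (s.2.2.1 = s.1.2.2) :=
    d.comp (Primrec.fst.comp (Primrec.snd.comp Primrec.snd))
      (Primrec.snd.comp (Primrec.snd.comp Primrec.fst))
  have c3 : Primrec fun s : (List (ℕ × β × ℕ) × List ℕ × β) × (ℕ × β × ℕ) =>
      (inL s.1.2.1 s.2.1 && decide (s.2.2.1 = s.1.2.2)) := Primrec.and.comp c1 c2
  have c4 : Primrec fun s : (List (ℕ × β × ℕ) × List ℕ × β) × (ℕ × β × ℕ) => some s.2.2.2 :=
    Primrec.option_some.comp (Primrec.snd.comp (Primrec.snd.comp Primrec.snd))
  have c5 : Primrec fun s : (List (ℕ × β × ℕ) × List ℕ × β) × (ℕ × β × ℕ) =>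
      (bif inL s.1.2.1 s.2.1 && decide (s.2.2.1 = s.1.2.2) then some s.2.2.2 else none) :=
    Primrec.cond c3 c4 (Primrec.const none)
  exact Primrec.listFilterMap Primrec.fst c5.to₂

theorem runL_prim : Primrec fun r : List (ℕ × β × ℕ) × List ℕ × List β =>
    runL r.1 r.2.1 r.2.2 := by
  have h : Primrec₂ fun (r : List (ℕ × β × ℕ) × List ℕ × List β) (s : List ℕ × β) =>
      stp r.1 s.1 s.2 := by
    have : Primrec fun q : (List (ℕ × β × ℕ) × List ℕ × List β) × (List ℕ × β) =>
        ((q.1.1, q.2) : List (ℕ × β × ℕ) × List ℕ × β) :=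
      Primrec.pair (Primrec.fst.comp Primrec.fst) Primrec.snd
    exact (Primrec.of_eq (stp_prim.comp this) (fun r => rfl)).to₂
  exact Primrec.list_foldl (Primrec.snd.comp Primrec.snd) (Primrec.fst.comp Primrec.snd) h

theorem accL_prim : Primrec fun r : (List (ℕ × β × ℕ) × ℕ × List ℕ) × List β =>
    accL r.1.1 r.1.2.1 r.1.2.2 r.2 := by
  have h0 : Primrec fun r : (List (ℕ × β × ℕ) × ℕ × List ℕ) × List β => [r.1.2.1] :=
    Primrec.list_cons.comp (Primrec.fst.comp (Primrec.snd.comp Primrec.fst)) (Primrec.const [])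
  have h1 : Primrec fun r : (List (ℕ × β × ℕ) × ℕ × List ℕ) × List β =>
      ((r.1.1, [r.1.2.1], r.2) : List (ℕ × β × ℕ) × List ℕ × List β) :=
    Primrec.pair (Primrec.fst.comp Primrec.fst) (Primrec.pair h0 Primrec.snd)
  have h2 : Primrec fun r : (List (ℕ × β × ℕ) × ℕ × List ℕ) × List β =>
      runL r.1.1 [r.1.2.1] r.2 := Primrec.of_eq (runL_prim.comp h1) (fun r => rfl)
  have h3 : Primrec₂ fun (r : (List (ℕ × β × ℕ) × ℕ × List ℕ) × List β) (q : ℕ) =>
      (bif inL r.1.2.2 q then some q else none : Option ℕ) := by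
    have c1 : Primrec fun s : ((List (ℕ × β × ℕ) × ℕ × List ℕ) × List β) × ℕ =>
        inL s.1.1.2.2 s.2 :=
      inL_prim.comp (Primrec.snd.comp (Primrec.snd.comp (Primrec.fst.comp Primrec.fst)))
        Primrec.snd
    exact (Primrec.cond c1 (Primrec.option_some.comp Primrec.snd) (Primrec.const none)).to₂
  have h4 := Primrec.listFilterMap h2 h3
  have h5 : Primrec₂ fun m n : ℕ => decide (m < n) := Primrec.nat_lt.decide
  exact h5.comp (Primrec.const 0) (Primrec.list_length.comp h4)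

end prim

theorem cv_prim : Primrec₂ cv := by
  have h1 : Primrec fun r : List ℕ × List ℕ => List.range (max r.1.length r.2.length) :=
    Primrec.list_range.comp (Primrec.nat_max.comp (Primrec.list_length.comp Primrec.fst)
      (Primrec.list_length.comp Primrec.snd))
  have h2 : Primrec₂ fun (r : List ℕ × List ℕ) (i : ℕ) =>
      ((r.1[i]?, r.2[i]?) : Option ℕ × Option ℕ) := by
    have c1 : Primrec fun s : (List ℕ × List ℕ) × ℕ => s.1.1[s.2]? :=
      Primrec.list_getElem?.comp (Primrec.fst.comp Primrec.fst) Primrec.snd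
    have c2 : Primrec fun s : (List ℕ × List ℕ) × ℕ => s.1.2[s.2]? :=
      Primrec.list_getElem?.comp (Primrec.snd.comp Primrec.fst) Primrec.snd
    exact (Primrec.pair c1 c2).to₂
  exact Primrec.list_map h1 h2

theorem wd_prim : Primrec wd := by
  have h1 : Primrec fun c : ℕ => (Encodable.decode c : Option (List ℕ)) := Primrec.decode
  exact Primrec.option_getD.comp h1 (Primrec.const [])

theorem Aof_prim : Primrec Aof := by
  have h : Primrec₂ fun (_ : List (ℕ × ℕ × ℕ)) (s : (ℕ × ℕ × ℕ) × ℕ) => s.1.2.1 + s.2 + 1 := by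
    have c1 : Primrec fun r : List (ℕ × ℕ × ℕ) × ((ℕ × ℕ × ℕ) × ℕ) => r.2.1.2.1 :=
      Primrec.fst.comp (Primrec.snd.comp (Primrec.fst.comp Primrec.snd))
    have c2 : Primrec fun r : List (ℕ × ℕ × ℕ) × ((ℕ × ℕ × ℕ) × ℕ) => r.2.2 :=
      Primrec.snd.comp Primrec.snd
    exact (Primrec.succ.comp (Primrec.nat_add.comp c1 c2)).to₂
  exact Primrec.list_foldr Primrec.id (Primrec.const 0) h

end Pool.Agent.H448R5
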